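import Pool.Agent.H45R3.AC.TM

/-!
# The two-tape counter machine

A finite automaton with an integer counter, the counter being the position of the head of the
second tape relative to a marked cell.
-/

namespace Pool.Agent.H45R3.AC

open Turing

noncomputable section

/-- A finite automaton with an integer counter. -/
structure CSys (I : Type) where
  Q : Type
  [finQ : Fintype Q]
  [decQ : DecidableEq Q]
  q0 : Q
  nx : I → Q → Q
  e : I → Q → ℤ
  E : ℤ
  hE : ∀ i q, |e i q| ≤ E
  hE0 : 0 ≤ E

attribute [instance] CSys.finQ CSys.decQ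

namespace CSys

variable {I : Type} [Fintype I] (S : CSys I)

/-- Bounded integers. -/
abbrev Bd : Type := {x : ℤ // x ∈ Finset.Icc (-S.E) S.E}

/-- Truncation. -/
def toB (x : ℤ) : S.Bd :=
  if h : x ∈ Finset.Icc (-S.E) S.E then ⟨x, h⟩ else ⟨0, by have := S.hE0; simp [this]⟩

omit [Fintype I] in
theorem toB_val (x : ℤ) (h : |x| ≤ S.E) : (S.toB x).1 = x := by
  unfold toB
  rw [dif_pos]
  rw [Finset.mem_Icc]
  exact abs_le.1 h

/-- Symbols. -/
abbrev Sym (I : Type) : Type := Option (I ⊕ Unit)

/-- States. -/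
abbrev St : Type := Option (S.Q × S.Bd) ⊕ Bool

/-- The marker. -/
def mrk : Sym I := some (Sum.inr ())

open Classical in
/-- Transition function: new state, symbol and move on tape 0, symbol and move on tape 1. -/
def trans : S.St → Sym I → Sym I → S.St × (Sym I × Option Dir) × (Sym I × Option Dir)
  | Sum.inl none, a, _ => (Sum.inl (some (S.q0, S.toB 0)), (a, none), (mrk, none))
  | Sum.inl (some (q, u)), a, c =>
    if 0 < u.1 then (Sum.inl (some (q, S.toB (u.1 - 1))), (a, none), (c, some Dir.right))
    else if u.1 < 0 then (Sum.inl (some (q, S.toB (u.1 + 1))), (a, none), (c, some Dir.left))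
    else match a with
      | some (Sum.inl i) =>
        (Sum.inl (some (S.nx i q, S.toB (S.e i q))), (a, some Dir.right), (c, none))
      | _ => (Sum.inr (decide (q = S.q0 ∧ c = mrk)), (a, none), (c, none))
  | Sum.inr b, a, c => (Sum.inr b, (a, none), (c, none))

/-- The machine. -/
def machine : MTM 2 where
  Γ := Sym I
  Q := S.St
  start := Sum.inl none
  accept := Sum.inr true
  reject := Sum.inr false
  accept_ne_reject := by simp
  δ := fun q a => ((S.trans q (a 0) (a 1)).1, fun j =>
    if j = 0 then (S.trans q (a 0) (a 1)).2.1 else (S.trans q (a 0) (a 1)).2.2)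

/-- Configurations. -/
def cfg (q : S.St) (T0 T1 : Tape (Sym I)) : S.machine.Cfg := ⟨q, fun j => if j = 0 then T0 else T1⟩

theorem next_cfg (q : S.St) (T0 T1 : Tape (Sym I)) : S.machine.next (S.cfg q T0 T1) =
    S.cfg (S.trans q T0.head T1.head).1
      (MTM.moveOpt (S.trans q T0.head T1.head).2.1.2
        (T0.write (S.trans q T0.head T1.head).2.1.1))
      (MTM.moveOpt (S.trans q T0.head T1.head).2.2.2
        (T1.write (S.trans q T0.head T1.head).2.2.1)) := by
  unfold MTM.next cfg machine
  simp only [if_true, one_ne_zero, if_false, MTM.Cfg.mk.injEq, true_and]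
  funext j
  by_cases h : j = 0
  · simp [h]
  · simp [h]

theorem not_halted_inl (v) (T0 T1 : Tape (Sym I)) :
    ¬ S.machine.Halted (S.cfg (Sum.inl v) T0 T1) := by
  rintro (h | h) <;> simp [cfg, machine] at h

/-- The second tape stands for the value `k` of the counter. -/
def Cnt (T : Tape (Sym I)) (k : ℤ) : Prop := ∀ j : ℤ, T.nth j = if j = -k then mrk else none

omit [Fintype I] in
theorem Cnt.right {T : Tape (Sym I)} {k : ℤ} (h : Cnt T k) : Cnt (T.move Dir.right) (k + 1) := by
  intro j
  rw [Tape.move_right_nth, h]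
  congr 1
  rw [eq_iff_iff]
  constructor <;> intro h <;> omega

omit [Fintype I] in
theorem Cnt.left {T : Tape (Sym I)} {k : ℤ} (h : Cnt T k) : Cnt (T.move Dir.left) (k - 1) := by
  intro j
  rw [Tape.move_left_nth, h]
  congr 1
  rw [eq_iff_iff]
  constructor <;> intro h <;> omega

theorem drain (T0 : Tape (Sym I)) (q : S.Q) : ∀ (n : ℕ) (u k : ℤ) (T1 : Tape (Sym I)),
    u.natAbs = n → |u| ≤ S.E → Cnt T1 k → ∃ T1', Cnt T1' (k + u) ∧
      S.machine.Run (S.cfg (Sum.inl (some (q, S.toB u))) T0 T1) n
        (S.cfg (Sum.inl (some (q, S.toB 0))) T0 T1') := by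
  intro n
  induction n with
  | zero =>
    intro u k T1 hu _ hT
    have : u = 0 := by omega
    subst this
    exact ⟨T1, by simpa using hT, MTM.Run.refl _⟩
  | succ n ih =>
    intro u k T1 hu hE hT
    have hv := S.toB_val u hE
    rcases lt_trichotomy u 0 with h | h | h
    · have hE' : |u + 1| ≤ S.E := by
        rw [abs_le] at hE ⊢
        omega
      obtain ⟨T1', h1, h2⟩ := ih (u + 1) (k - 1) (T1.move Dir.left) (by omega) hE' hT.left
      refine ⟨T1', by convert! h1 using 1; ring, ?_⟩
      refine MTM.Run.step (S.not_halted_inl _ _ _) ?_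
      rw [next_cfg]
      have h3 : S.trans (Sum.inl (some (q, S.toB u))) T0.head T1.head =
          (Sum.inl (some (q, S.toB (u + 1))), (T0.head, none), (T1.head, some Dir.left)) := by
        simp only [trans, hv]
        rw [if_neg (by omega), if_pos h]
      rw [h3]
      simp only [MTM.moveOpt, Tape.write_self]
      exact h2
    · omega
    · have hE' : |u - 1| ≤ S.E := by
        rw [abs_le] at hE ⊢
        omega
      obtain ⟨T1', h1, h2⟩ := ih (u - 1) (k + 1) (T1.move Dir.right) (by omega) hE' hT.right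
      refine ⟨T1', by convert! h1 using 1; ring, ?_⟩
      refine MTM.Run.step (S.not_halted_inl _ _ _) ?_
      rw [next_cfg]
      have h3 : S.trans (Sum.inl (some (q, S.toB u))) T0.head T1.head =
          (Sum.inl (some (q, S.toB (u - 1))), (T0.head, none), (T1.head, some Dir.right)) := by
        simp only [trans, hv]
        rw [if_pos h]
      rw [h3]
      simp only [MTM.moveOpt, Tape.write_self]
      exact h2

/-- Encoding of letters. -/
def encI (i : I) : Sym I := some (Sum.inl i)

theorem loop (w : List I) : ∀ (q : S.Q) (k : ℤ) (L : ListBlank (Sym I)) (T1 : Tape (Sym I)),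
    Cnt T1 k → ∃ (t : ℕ) (L' : ListBlank (Sym I)) (T1' : Tape (Sym I)),
      (t : ℤ) ≤ (S.E + 1) * w.length ∧
      Cnt T1' (w.foldl (fun (s : S.Q × ℤ) i => (S.nx i s.1, s.2 + S.e i s.1)) (q, k)).2 ∧
      S.machine.Run (S.cfg (Sum.inl (some (q, S.toB 0)))
        (Tape.mk' L (ListBlank.mk (w.map encI))) T1) t
        (S.cfg (Sum.inl (some
          ((w.foldl (fun (s : S.Q × ℤ) i => (S.nx i s.1, s.2 + S.e i s.1)) (q, k)).1,
            S.toB 0))) (Tape.mk' L' (ListBlank.mk [])) T1') := by
  induction w with
  | nil =>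
    intro q k L T1 hT
    exact ⟨0, L, T1, by simp, hT, MTM.Run.refl _⟩
  | cons i w ih =>
    intro q k L T1 hT
    have hb : |S.e i q| ≤ S.E := S.hE i q
    obtain ⟨T2, h1, h2⟩ := S.drain (Tape.mk' (L.cons (encI i)) (ListBlank.mk (w.map encI)))
      (S.nx i q) (S.e i q).natAbs (S.e i q) k T1 rfl hb hT
    obtain ⟨t, L', T1', h3, h4, h5⟩ := ih (S.nx i q) (k + S.e i q) (L.cons (encI i)) T2 h1
    refine ⟨1 + ((S.e i q).natAbs + t), L', T1', ?_, h4, ?_⟩
    · push_cast
      rw [List.length_cons]
      push_cast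
      nlinarith [S.hE0]
    · refine MTM.Run.trans (MTM.Run.step (S.not_halted_inl _ _ _) ?_) (h2.trans h5)
      rw [List.map_cons, ← ListBlank.cons_mk, next_cfg]
      have h0 : (S.toB 0).1 = 0 := S.toB_val 0 (by simpa using S.hE0)
      have h6 : S.trans (Sum.inl (some (q, S.toB 0)))
          (Tape.mk' L ((ListBlank.mk (w.map encI)).cons (encI i))).head T1.head =
          (Sum.inl (some (S.nx i q, S.toB (S.e i q))), (encI i, some Dir.right),
            (T1.head, none)) := by
        have h7 : (Tape.mk' L ((ListBlank.mk (w.map encI)).cons (encI i))).head = encI i := by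
          simp
        rw [h7]
        simp only [trans, h0]
        rw [if_neg (lt_irrefl _), if_neg (lt_irrefl _)]
        rfl
      rw [h6]
      simp only [MTM.moveOpt, Tape.write_self, Tape.write_mk', ListBlank.tail_cons,
        Tape.move_right_mk', ListBlank.head_cons]
      exact MTM.Run.refl _

omit [Fintype I] in
theorem blank_nth (j : ℤ) : (Tape.mk₁ ([] : List (Sym I))).nth j = none := by
  unfold Tape.mk₁ Tape.mk₂
  rcases j with (_ | n) | n
  · rfl
  · change (Tape.mk' (ListBlank.mk []) (ListBlank.mk [])).right.nth n = none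
    rw [Tape.mk'_right, ListBlank.tail_mk, ListBlank.nth_mk]
    simp
    rfl
  · change (Tape.mk' (ListBlank.mk []) (ListBlank.mk [])).left.nth n = none
    rw [Tape.mk'_left, ListBlank.nth_mk]
    simp
    rfl

theorem decides (w : List I) : ∃ (t : ℕ), (t : ℤ) ≤ (S.E + 1) * w.length + 2 ∧
    S.machine.Decides (w.map encI) t (decide
      (w.foldl (fun (s : S.Q × ℤ) i => (S.nx i s.1, s.2 + S.e i s.1)) (S.q0, 0) =
        (S.q0, 0))) := by
  set R := w.foldl (fun (s : S.Q × ℤ) i => (S.nx i s.1, s.2 + S.e i s.1)) (S.q0, 0) with hR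
  -- first step
  have hinit : S.machine.init (w.map encI) =
      S.cfg (Sum.inl none) (Tape.mk' (ListBlank.mk []) (ListBlank.mk (w.map encI)))
        (Tape.mk₁ []) := by
    unfold MTM.init cfg
    congr 1
    funext j
    by_cases h : j = 0
    · subst h; rfl
    · have : (j : ℕ) ≠ 0 := fun h' => h (Fin.ext h')
      rw [if_neg this]
      exact (if_neg h).symm
  have h1 : S.machine.Run (S.machine.init (w.map encI)) 1
      (S.cfg (Sum.inl (some (S.q0, S.toB 0)))
        (Tape.mk' (ListBlank.mk []) (ListBlank.mk (w.map encI))) ((Tape.mk₁ []).write mrk)) := by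
    rw [hinit]
    refine MTM.Run.step (S.not_halted_inl _ _ _) ?_
    rw [next_cfg]
    simp only [trans, MTM.moveOpt, Tape.write_self]
    exact MTM.Run.refl _
  have hC : Cnt ((Tape.mk₁ ([] : List (Sym I))).write mrk) 0 := by
    intro j
    rw [Tape.write_nth, blank_nth]
    simp
  obtain ⟨t, L', T1', h2, h3, h4⟩ := S.loop w S.q0 0 (ListBlank.mk []) _ hC
  rw [← hR] at h3 h4
  have h5 := h1.trans h4
  refine ⟨1 + t + 1, by push_cast; linarith, ?_⟩
  have h0 : (S.toB 0).1 = 0 := S.toB_val 0 (by simpa using S.hE0)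
  refine MTM.Run.decides (h5.trans (MTM.Run.step (S.not_halted_inl _ _ _)
    (MTM.Run.refl _))) _ ?_
  rw [next_cfg]
  have h6 : (Tape.mk' L' (ListBlank.mk ([] : List (Sym I)))).head = none := rfl
  rw [h6]
  have h7 : T1'.head = if R.2 = 0 then mrk else none := by
    have := h3 0
    rw [Tape.nth_zero] at this
    rw [this]
    congr 1
    rw [eq_iff_iff]
    constructor <;> intro h <;> omega
  simp only [trans, h0, cfg]
  rw [if_neg (lt_irrefl _), if_neg (lt_irrefl _), h7]
  by_cases hRz : R = (S.q0, 0)
  · have h8 : R.1 = S.q0 ∧ (if R.2 = 0 then mrk else none) = (mrk : Sym I) := by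
      rw [hRz]; simp
    rw [decide_eq_true hRz]
    simp only [h8]
    simp [machine]
  · have h8 : ¬ (R.1 = S.q0 ∧ (if R.2 = 0 then mrk else none) = (mrk : Sym I)) := by
      rintro ⟨ha, hb⟩
      apply hRz
      refine Prod.ext ha ?_
      by_contra hc
      rw [if_neg hc] at hb
      simp [mrk] at hb
    rw [decide_eq_false hRz]
    simp only [h8]
    simp [machine]

end CSys

end

end Pool.Agent.H45R3.AC
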