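import Pool.Agent.H45R3.AC.Walk

/-!
# Decay of return probabilities on finite groups with quadratic growth up to some radius
-/

namespace Pool.Agent.H45R3.AC

open Finset

theorem seq_decay (u : ℕ → ℝ) (h0 : ∀ n, 0 ≤ u n) (hanti : ∀ n, u (n + 1) ≤ u n) (a c : ℝ)
    (hc : 0 < c) (h : ∀ n, u n ≤ a ∨ c * u n ^ 2 ≤ u n - u (n + 1)) :
    ∀ n : ℕ, u n ≤ a ∨ u n * (c * n) ≤ 1 := by
  intro n
  induction n with
  | zero => right; simp
  | succ n ih =>
    rcases h n with h1 | h1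
    · left; exact (hanti n).trans h1
    rcases ih with h2 | h2
    · left; exact (hanti n).trans h2
    right
    have hn : (0 : ℝ) ≤ n := Nat.cast_nonneg n
    push_cast
    have hx : 0 ≤ c * u n := mul_nonneg hc.le (h0 n)
    have h3 : u (n + 1) ≤ u n - c * u n ^ 2 := by linarith
    have h4 : u (n + 1) * (c * (n + 1)) ≤ (u n - c * u n ^ 2) * (c * (n + 1)) :=
      mul_le_mul_of_nonneg_right h3 (by positivity)
    refine h4.trans ?_
    -- with x = c * u n: (n+1) x (1-x) ≤ 1, knowing n x ≤ 1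
    set x := c * u n with hxdef
    have e : (u n - c * u n ^ 2) * (c * (n + 1)) = (n + 1) * x * (1 - x) := by
      rw [hxdef]; ring
    rw [e]
    have h5 : n * x ≤ 1 := by rw [hxdef]; linarith
    by_cases h6 : (n + 1) * x ≤ 1
    · by_cases h7 : x ≤ 1
      · calc (n + 1) * x * (1 - x) ≤ 1 * (1 - x) :=
              mul_le_mul_of_nonneg_right h6 (by linarith)
          _ ≤ 1 := by linarith
      · push Not at h7
        have : 0 ≤ (n + 1) * x := by positivity
        nlinarith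
    · push Not at h6
      -- (n+1) x (1 - x) ≤ n x
      have : (n + 1) * x * (1 - x) ≤ n * x := by nlinarith
      linarith

variable {H : Type*} [Group H] [Fintype H] [DecidableEq H] {I : Type*} [Fintype I] [Nonempty I]

theorem nrm_le_one (γ : I → H) (n : ℕ) : nrm γ n ≤ 1 := by
  induction n with
  | zero => simp [nrm, dist]
  | succ n ih => exact (nrm_anti γ n).trans ih

/-- Quadratic growth up to radius `s / κ` forces decay. -/
theorem quad_step (γ : I → H) (q κ s : ℝ) (hq : 0 < q) (hq1 : q ≤ 1) (hκ : 0 < κ) (hs : 0 < s)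
    (hW : ∀ r : ℕ, κ * r ≤ s → ∃ S : Finset H, S.Nonempty ∧
      (∀ h ∈ S, ∃ w : List (I × I), w.length = r ∧ pev γ w = h) ∧ q * (r : ℝ) ^ 2 ≤ S.card)
    (n : ℕ) :
    nrm γ n ≤ 8 * κ ^ 2 / (q * s ^ 2) ∨
      q / (16 * (Fintype.card I : ℝ) ^ 2) * nrm γ n ^ 2 ≤ nrm γ n - nrm γ (n + 1) := by
  have hI : (0 : ℝ) < Fintype.card I := by exact_mod_cast Fintype.card_pos
  set u := nrm γ n with hu
  have hu1 : u ≤ 1 := nrm_le_one γ n
  rcases (nrm_nonneg γ n).eq_or_lt with h0 | h0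
  · left
    rw [hu, ← h0]
    positivity
  rw [← hu] at h0
  set r := ⌈Real.sqrt (2 / (q * u))⌉₊ with hr
  set t := Real.sqrt (2 / (q * u)) with ht
  have hqu : 0 < q * u := mul_pos hq h0
  have ht2 : t ^ 2 = 2 / (q * u) := Real.sq_sqrt (by positivity)
  have ht1 : 1 ≤ t := by
    rw [ht]
    apply Real.one_le_sqrt.2
    rw [le_div_iff₀ hqu]
    nlinarith
  have hr1 : t ≤ r := Nat.le_ceil _
  have hr2 : (r : ℝ) ≤ 2 * t := by
    have := Nat.ceil_lt_add_one (show 0 ≤ t by positivity)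
    rw [← hr] at this
    linarith
  have hr3 : (r : ℝ) ^ 2 ≤ 8 / (q * u) := by
    have : (r : ℝ) ^ 2 ≤ (2 * t) ^ 2 := pow_le_pow_left₀ (Nat.cast_nonneg _) hr2 2
    rw [mul_pow, ht2] at this
    refine this.trans (le_of_eq ?_)
    ring
  by_cases hc : κ * r ≤ s
  · right
    obtain ⟨S, hS, hSw, hSc⟩ := hW r hc
    have h1 := nash γ n r S hS hSw
    rw [← hu] at h1
    have hc0 : (0 : ℝ) < S.card := by exact_mod_cast hS.card_pos
    have h2 : 2 / u ≤ S.card := by
      refine le_trans ?_ hSc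
      have : t ^ 2 ≤ (r : ℝ) ^ 2 := pow_le_pow_left₀ (by positivity) hr1 2
      rw [ht2] at this
      calc 2 / u = q * (2 / (q * u)) := by field_simp
        _ ≤ _ := mul_le_mul_of_nonneg_left this hq.le
    have h3 : 1 / (S.card : ℝ) ≤ u / 2 := by
      rw [div_le_div_iff₀ hc0 two_pos]
      rw [div_le_iff₀ h0] at h2
      linarith
    set D := u - nrm γ (n + 1) with hD
    have hD0 : 0 ≤ D := by
      have := nrm_anti γ n
      rw [← hu] at this
      linarith
    have h4 : u / 2 ≤ 8 / (q * u) * (Fintype.card I : ℝ) ^ 2 * D := by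
      have : (r : ℝ) ^ 2 * (Fintype.card I : ℝ) ^ 2 * D ≤
          8 / (q * u) * (Fintype.card I : ℝ) ^ 2 * D :=
        mul_le_mul_of_nonneg_right (mul_le_mul_of_nonneg_right hr3 (by positivity)) hD0
      linarith
    have h5 : q * u ^ 2 ≤ 16 * (Fintype.card I : ℝ) ^ 2 * D := by
      have h6 := mul_le_mul_of_nonneg_left h4 (show 0 ≤ 2 * (q * u) by positivity)
      have e1 : 2 * (q * u) * (u / 2) = q * u ^ 2 := by ring
      have e2 : 2 * (q * u) * (8 / (q * u) * (Fintype.card I : ℝ) ^ 2 * D) =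
          16 * (Fintype.card I : ℝ) ^ 2 * D := by
        field_simp
        ring
      rwa [e1, e2] at h6
    rw [div_mul_eq_mul_div, div_le_iff₀ (by positivity)]
    linarith
  · left
    push Not at hc
    have h1 : s ^ 2 ≤ κ ^ 2 * (8 / (q * u)) := by
      have : s ^ 2 ≤ (κ * r) ^ 2 := pow_le_pow_left₀ hs.le hc.le 2
      rw [mul_pow] at this
      exact this.trans (mul_le_mul_of_nonneg_left hr3 (by positivity))
    rw [le_div_iff₀ (by positivity)]
    have h2 := mul_le_mul_of_nonneg_left h1 hqu.le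
    have e : q * u * (κ ^ 2 * (8 / (q * u))) = 8 * κ ^ 2 := by field_simp
    rw [e] at h2
    linarith

theorem quad_decay (γ : I → H) (q κ s : ℝ) (hq : 0 < q) (hq1 : q ≤ 1) (hκ : 0 < κ) (hs : 0 < s)
    (hW : ∀ r : ℕ, κ * r ≤ s → ∃ S : Finset H, S.Nonempty ∧
      (∀ h ∈ S, ∃ w : List (I × I), w.length = r ∧ pev γ w = h) ∧ q * (r : ℝ) ^ 2 ≤ S.card)
    (m : ℕ) (hm : 0 < m) (y : H) :
    dist γ m y ≤ (8 * κ ^ 2 + 48 * (Fintype.card I : ℝ) ^ 2) / q * (1 / s ^ 2 + 1 / m) := by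
  have hI : (1 : ℝ) ≤ Fintype.card I := by exact_mod_cast Fintype.card_pos
  have hI2 : (1 : ℝ) ≤ (Fintype.card I : ℝ) ^ 2 := one_le_pow₀ hI
  have hm' : (0 : ℝ) < m := by exact_mod_cast hm
  have hm1 : (1 : ℝ) ≤ m := by exact_mod_cast hm
  refine (dist_le_nrm γ m y).trans ?_
  set n := m / 2 with hn
  have hmn : (m : ℝ) ≤ 3 * n ∨ m = 1 := by
    rcases Nat.lt_or_ge m 2 with h | h
    · right; omega
    · left
      have : m ≤ 3 * n := by omega
      exact_mod_cast this
  have hC : (8 * κ ^ 2 + 48 * (Fintype.card I : ℝ) ^ 2) / q * (1 / s ^ 2 + 1 / m) =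
      8 * κ ^ 2 / q * (1 / s ^ 2) + 8 * κ ^ 2 / q * (1 / m) +
      48 * (Fintype.card I : ℝ) ^ 2 / q * (1 / s ^ 2) +
      48 * (Fintype.card I : ℝ) ^ 2 / q * (1 / m) := by ring
  rw [hC]
  have p1 : 0 ≤ 8 * κ ^ 2 / q * (1 / s ^ 2) := by positivity
  have p2 : 0 ≤ 8 * κ ^ 2 / q * (1 / (m : ℝ)) := by positivity
  have p3 : 0 ≤ 48 * (Fintype.card I : ℝ) ^ 2 / q * (1 / s ^ 2) := by positivity
  have p4 : 0 ≤ 48 * (Fintype.card I : ℝ) ^ 2 / q * (1 / (m : ℝ)) := by positivity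
  rcases hmn with h | h
  · have hn0 : (0 : ℝ) < n := by linarith
    rcases seq_decay (nrm γ) (nrm_nonneg γ) (nrm_anti γ) _ _ (by positivity)
      (quad_step γ q κ s hq hq1 hκ hs hW) n with h1 | h1
    · have e : 8 * κ ^ 2 / (q * s ^ 2) = 8 * κ ^ 2 / q * (1 / s ^ 2) := by
        rw [div_mul_div_comm, mul_one]
      rw [e] at h1
      linarith
    · have h2 : nrm γ n ≤ 48 * (Fintype.card I : ℝ) ^ 2 / q * (1 / (m : ℝ)) := by
        have h3 : nrm γ n ≤ 1 / (q / (16 * (Fintype.card I : ℝ) ^ 2) * n) := by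
          rw [le_div_iff₀ (by positivity)]
          exact h1
        refine h3.trans ?_
        rw [div_mul_div_comm, mul_one, div_le_div_iff₀ (by positivity) (by positivity)]
        have e2 : 48 * (Fintype.card I : ℝ) ^ 2 * (q / (16 * (Fintype.card I : ℝ) ^ 2) * n) =
            q * (3 * n) := by
          field_simp
          ring
        rw [e2, one_mul]
        exact mul_le_mul_of_nonneg_left h hq.le
      linarith
  · subst h
    have h2 := nrm_le_one γ n
    have h3 : (1 : ℝ) ≤ 48 * (Fintype.card I : ℝ) ^ 2 / q * (1 / ((1 : ℕ) : ℝ)) := by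
      rw [Nat.cast_one, div_one, mul_one, le_div_iff₀ hq]
      nlinarith
    linarith

end Pool.Agent.H45R3.AC
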