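import Pool.Agent.H45R3.AC.TM

/-!
# The digit-by-digit sweeping machine

A one-tape machine which, sweeping over its input word again and again, computes in the `s`-th
sweep the `s`-th `b`-adic digits of the image of a fixed vector under the product of the integer
linear maps coded by the letters.
-/

namespace Pool.Agent.H45R3.AC

open Turing

noncomputable section

/-- Linear maps of `ℤ ^ ι`, with bounds. -/
structure DSys (I : Type) where
  ι : Type
  [fin : Fintype ι]
  [dec : DecidableEq ι]
  F : I → (ι → ℤ) → (ι → ℤ)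
  add : ∀ i x y, F i (x + y) = F i x + F i y
  smul : ∀ i (c : ℤ) x, F i (c • x) = c • F i x
  b : ℤ
  hb : 2 ≤ b
  A : ℤ
  hAb : b ≤ A
  hA : ∀ i (B : ℤ) x, (∀ j, |x j| ≤ B) → ∀ j, |F i x j| ≤ A * B
  x0 : ι → ℤ
  hx0 : ∀ j, 0 ≤ x0 j ∧ x0 j < b
  ok : (ι → ℤ) → Bool

attribute [instance] DSys.fin DSys.dec

namespace DSys

variable {I : Type} (S : DSys I)

/-- The first `s` digits. -/
def lo (s : ℕ) (x : S.ι → ℤ) : S.ι → ℤ := fun j => x j % S.b ^ s

/-- The digit number `s`. -/
def dg (s : ℕ) (x : S.ι → ℤ) : S.ι → ℤ := fun j => (x j / S.b ^ s) % S.b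

/-- The carry after the first `s` digits. -/
def carry (s : ℕ) (i : I) (x : S.ι → ℤ) : S.ι → ℤ := fun j => S.F i (S.lo s x) j / S.b ^ s

theorem bpos : 0 < S.b := by have := S.hb; omega

theorem Apos : 0 ≤ S.A := by have := S.hb; have := S.hAb; omega

theorem lo_succ (s : ℕ) (x : S.ι → ℤ) : S.lo (s + 1) x = S.lo s x + S.b ^ s • S.dg s x := by
  funext j
  simp only [lo, dg, Pi.add_apply, Pi.smul_apply, smul_eq_mul]
  rw [pow_succ]
  have hb := S.bpos
  have hp : 0 < S.b ^ s := by positivity
  rw [Int.emod_def (x j) (S.b ^ s * S.b), Int.emod_def (x j) (S.b ^ s),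
    Int.emod_def (x j / S.b ^ s) S.b, ← Int.ediv_ediv_of_nonneg hp.le]
  ring

theorem digit_step (s : ℕ) (i : I) (x : S.ι → ℤ) (j : S.ι) :
    (S.F i (S.dg s x) j + S.carry s i x j) % S.b = S.dg s (S.F i x) j := by
  have hb := S.bpos
  have hp : 0 < S.b ^ s := by positivity
  have hp' : S.b ^ s ≠ 0 := hp.ne'
  have e : x = S.lo (s + 1) x + S.b ^ (s + 1) • (fun j => x j / S.b ^ (s + 1)) := by
    funext j
    simp only [lo, Pi.add_apply, Pi.smul_apply, smul_eq_mul]
    exact (Int.emod_add_mul_ediv _ _).symm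
  have e2 : S.F i x j = S.F i (S.lo s x) j + (S.F i (S.dg s x) j +
      S.b * S.F i (fun j => x j / S.b ^ (s + 1)) j) * S.b ^ s := by
    conv_lhs => rw [e]
    rw [S.add, S.smul, S.lo_succ, S.add, S.smul]
    simp only [Pi.add_apply, Pi.smul_apply, smul_eq_mul]
    ring
  have key : S.dg s (S.F i x) j = (S.F i x j / S.b ^ s) % S.b := rfl
  rw [key, e2, Int.add_mul_ediv_right _ _ hp']
  change (S.F i (S.dg s x) j + S.F i (S.lo s x) j / S.b ^ s) % S.b = _
  rw [show S.F i (S.lo s x) j / S.b ^ s + (S.F i (S.dg s x) j +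
      S.b * S.F i (fun j => x j / S.b ^ (s + 1)) j) =
      (S.F i (S.dg s x) j + S.F i (S.lo s x) j / S.b ^ s) +
      S.b * S.F i (fun j => x j / S.b ^ (s + 1)) j by ring]
  rw [Int.add_mul_emod_self_left]

theorem carry_step (s : ℕ) (i : I) (x : S.ι → ℤ) (j : S.ι) :
    (S.F i (S.dg s x) j + S.carry s i x j) / S.b = S.carry (s + 1) i x j := by
  have hb := S.bpos
  have hp : 0 < S.b ^ s := by positivity
  have hp' : S.b ^ s ≠ 0 := hp.ne'
  unfold carry
  rw [S.lo_succ, S.add, S.smul]
  simp only [Pi.add_apply, Pi.smul_apply, smul_eq_mul]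
  rw [pow_succ, ← Int.ediv_ediv_of_nonneg hp.le, Int.add_mul_ediv_left _ _ hp', add_comm]

theorem carry_zero (i : I) (x : S.ι → ℤ) : S.carry 0 i x = 0 := by
  funext j
  unfold carry
  have : S.lo 0 x = 0 := by funext j; simp [lo]
  rw [this]
  have h0 : S.F i 0 = 0 := by
    have := S.smul i 0 0
    simpa using this
  rw [h0]
  simp

theorem dg_bound (s : ℕ) (x : S.ι → ℤ) (j : S.ι) : 0 ≤ S.dg s x j ∧ S.dg s x j < S.b :=
  ⟨Int.emod_nonneg _ S.bpos.ne', Int.emod_lt_of_pos _ S.bpos⟩

theorem carry_bound (s : ℕ) (i : I) (x : S.ι → ℤ) (j : S.ι) :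
    -S.A ≤ S.carry s i x j ∧ S.carry s i x j ≤ S.A := by
  have hb := S.bpos
  have hp : 0 < S.b ^ s := by positivity
  have h1 : ∀ j, |S.lo s x j| ≤ S.b ^ s := by
    intro j
    have h2 := Int.emod_nonneg (x j) hp.ne'
    have h3 := Int.emod_lt_of_pos (x j) hp
    unfold lo
    rw [abs_of_nonneg h2]
    exact h3.le
  have h4 := abs_le.1 (S.hA i _ _ h1 j)
  unfold carry
  constructor
  · rw [Int.le_ediv_iff_mul_le hp]
    linarith
  · have : S.F i (S.lo s x) j / S.b ^ s ≤ S.A * S.b ^ s / S.b ^ s :=
      Int.ediv_le_ediv hp h4.2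
    rwa [Int.mul_ediv_cancel _ hp.ne'] at this

/-- Bounded vectors. -/
abbrev V : Type := S.ι → {x : ℤ // x ∈ Finset.Icc (-S.A) S.A}

theorem zero_mem : (0 : ℤ) ∈ Finset.Icc (-S.A) S.A := by
  have := S.Apos
  simp [this]

/-- Truncation to a bounded vector. -/
def toV (x : S.ι → ℤ) : S.V := fun j =>
  if h : x j ∈ Finset.Icc (-S.A) S.A then ⟨x j, h⟩ else ⟨0, S.zero_mem⟩

/-- The integer vector of a bounded vector. -/
def ofV (v : S.V) : S.ι → ℤ := fun j => (v j).1

theorem ofV_toV (x : S.ι → ℤ) (h : ∀ j, -S.A ≤ x j ∧ x j ≤ S.A) : S.ofV (S.toV x) = x := by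
  funext j
  unfold ofV toV
  rw [dif_pos (Finset.mem_Icc.2 (h j))]

theorem ofV_dg (s : ℕ) (x : S.ι → ℤ) : S.ofV (S.toV (S.dg s x)) = S.dg s x :=
  S.ofV_toV _ fun j => by
    have h1 := S.dg_bound s x j
    have h2 := S.hAb
    have h3 := S.Apos
    constructor <;> omega

theorem ofV_carry (s : ℕ) (i : I) (x : S.ι → ℤ) : S.ofV (S.toV (S.carry s i x)) = S.carry s i x :=
  S.ofV_toV _ fun j => S.carry_bound s i x j

variable [Fintype I]

/-- Tape symbols: blank, or a letter with its carry and its mark. -/
abbrev Sym : Type := Option (I × S.V × Bool)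

/-- States: sweeping to the right with a digit vector and a flag, sweeping back, accepting,
rejecting. -/
abbrev St : Type := (S.V × Bool) ⊕ Fin 3

/-- The transition function. -/
def trans : S.St → S.Sym → S.St × S.Sym × Option Dir
  | Sum.inl (v, inc), some (i, κ, mr) =>
    (Sum.inl (S.toV (fun j => (S.F i (S.ofV v) j + S.ofV κ j) % S.b), inc || !mr),
      some (i, S.toV (fun j => (S.F i (S.ofV v) j + S.ofV κ j) / S.b), mr || !inc),
      some Dir.right)
  | Sum.inl (v, inc), none =>
    bif S.ok (S.ofV v) then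
      (bif inc then (Sum.inr 0, none, some Dir.left) else (Sum.inr 1, none, none))
    else (Sum.inr 2, none, none)
  | Sum.inr 0, some x => (Sum.inr 0, some x, some Dir.left)
  | Sum.inr 0, none => (Sum.inl (S.toV 0, false), none, some Dir.right)
  | Sum.inr (Fin.mk (k + 1) h), a => (Sum.inr (Fin.mk (k + 1) h), a, none)

/-- The one-tape machine. -/
def machine : MTM 1 where
  Γ := S.Sym
  Q := S.St
  start := Sum.inl (S.toV S.x0, false)
  accept := Sum.inr 1
  reject := Sum.inr 2
  accept_ne_reject := by simp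
  δ := fun q a => ((S.trans q (a 0)).1, fun _ => ((S.trans q (a 0)).2.1, (S.trans q (a 0)).2.2))

/-- A configuration of the machine. -/
def cfg (q : S.St) (T : Tape S.Sym) : S.machine.Cfg := ⟨q, fun _ => T⟩

theorem next_cfg (q : S.St) (T : Tape S.Sym) : S.machine.next (S.cfg q T) =
    S.cfg (S.trans q T.head).1
      (MTM.moveOpt (S.trans q T.head).2.2 (T.write (S.trans q T.head).2.1)) := rfl

theorem not_halted_inl (v) (T : Tape S.Sym) : ¬ S.machine.Halted (S.cfg (Sum.inl v) T) := by
  rintro (h | h) <;> simp [cfg, machine] at h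

theorem not_halted_zero (T : Tape S.Sym) : ¬ S.machine.Halted (S.cfg (Sum.inr 0) T) := by
  rintro (h | h) <;> simp [cfg, machine] at h

/-- The iterated image. -/
def X (x : S.ι → ℤ) (w : List I) : S.ι → ℤ := w.foldl (fun x i => S.F i x) x

/-- The tape contents before the sweep number `s`. -/
def cells (s : ℕ) : ℕ → (S.ι → ℤ) → List I → List S.Sym
  | _, _, [] => []
  | t, x, i :: w => some (i, S.toV (S.carry s i x), decide (t < s)) :: cells s (t + 1) (S.F i x) w

/-- Pushing a list on the left part of the tape. -/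
def pushAll {Γ : Type} [Inhabited Γ] (L : ListBlank Γ) (l : List Γ) : ListBlank Γ :=
  l.foldl (fun L a => L.cons a) L

theorem mk'_cons_head {Γ : Type} [Inhabited Γ] (L R : ListBlank Γ) (a : Γ) :
    (Tape.mk' L (R.cons a)).head = a := by simp

theorem right_sweep (s : ℕ) (w : List I) : ∀ (t : ℕ) (x : S.ι → ℤ) (L : ListBlank S.Sym),
    S.machine.Run (S.cfg (Sum.inl (S.toV (S.dg s x), decide (s < t)))
      (Tape.mk' L (ListBlank.mk (S.cells s t x w)))) w.length
      (S.cfg (Sum.inl (S.toV (S.dg s (S.X x w)), decide (s < t + w.length)))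
        (Tape.mk' (pushAll L (S.cells (s + 1) t x w)) (ListBlank.mk []))) := by
  induction w with
  | nil =>
    intro t x L
    exact MTM.Run.refl _
  | cons i w ih =>
    intro t x L
    have h1 : S.cells s t x (i :: w) =
        some (i, S.toV (S.carry s i x), decide (t < s)) :: S.cells s (t + 1) (S.F i x) w := rfl
    rw [h1, List.length_cons, ← ListBlank.cons_mk]
    refine MTM.Run.step (S.not_halted_inl _ _) ?_
    rw [next_cfg, mk'_cons_head]
    have h2 : S.trans (Sum.inl (S.toV (S.dg s x), decide (s < t)))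
        (some (i, S.toV (S.carry s i x), decide (t < s))) =
        (Sum.inl (S.toV (S.dg s (S.F i x)), decide (s < t + 1)),
          some (i, S.toV (S.carry (s + 1) i x), decide (t < s + 1)), some Dir.right) := by
      simp only [trans, S.ofV_dg, S.ofV_carry]
      simp only [S.digit_step, S.carry_step, Prod.mk.injEq, Sum.inl.injEq, Option.some.injEq,
        true_and, and_true]
      refine ⟨?_, ?_⟩
      · rw [Bool.eq_iff_iff]; simp; omega
      · rw [Bool.eq_iff_iff]; simp; omega
    rw [h2]
    simp only [MTM.moveOpt, Tape.write_mk', ListBlank.tail_cons, Tape.move_right_mk',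
      ListBlank.head_cons]
    have h3 := ih (t + 1) (S.F i x)
      (L.cons (some (i, S.toV (S.carry (s + 1) i x), decide (t < s + 1))))
    have e : t + 1 + w.length = t + (w.length + 1) := by ring
    rw [e] at h3
    exact h3

theorem cells_isSome (s : ℕ) (w : List I) : ∀ (t : ℕ) (x : S.ι → ℤ),
    ∀ a ∈ S.cells s t x w, a ≠ none := by
  induction w with
  | nil => intro t x a ha; simp [cells] at ha
  | cons i w ih =>
    intro t x a ha
    rcases List.mem_cons.1 ha with h | h
    · rw [h]; simp
    · exact ih _ _ a h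

theorem cells_length (s : ℕ) (w : List I) : ∀ (t : ℕ) (x : S.ι → ℤ),
    (S.cells s t x w).length = w.length := by
  induction w with
  | nil => intro t x; rfl
  | cons i w ih => intro t x; simp [cells, ih]

theorem blank_cons : (ListBlank.mk ([] : List S.Sym)).cons none = ListBlank.mk [] := by
  apply ListBlank.ext
  intro i
  rw [ListBlank.cons_mk, ListBlank.nth_mk, ListBlank.nth_mk]
  cases i with
  | zero => rfl
  | succ i => simp

theorem left_sweep (l : List S.Sym) (hl : ∀ a ∈ l, a ≠ none) : ∀ (R : ListBlank S.Sym),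
    S.machine.Run (S.cfg (Sum.inr 0)
      ((Tape.mk' (pushAll (ListBlank.mk []) l) R).move Dir.left)) (l.length + 1)
      (S.cfg (Sum.inl (S.toV 0, false))
        (Tape.mk' (ListBlank.mk []) (l.foldr (fun a R => R.cons a) R))) := by
  induction l using List.reverseRecOn with
  | nil =>
    intro R
    refine MTM.Run.step (S.not_halted_zero _) ?_
    have h1 : (Tape.mk' (pushAll (ListBlank.mk []) ([] : List S.Sym)) R).move Dir.left =
        Tape.mk' (ListBlank.mk []) (R.cons none) := by
      rw [Tape.move_left_mk']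
      rfl
    rw [h1, next_cfg, mk'_cons_head]
    simp only [trans, MTM.moveOpt, Tape.write_mk', ListBlank.tail_cons, Tape.move_right_mk',
      ListBlank.head_cons, S.blank_cons]
    exact MTM.Run.refl _
  | append_singleton l a ih =>
    intro R
    have ha : a ≠ none := hl a (by simp)
    obtain ⟨x, rfl⟩ := Option.ne_none_iff_exists'.1 ha
    rw [List.length_append]
    refine MTM.Run.step (S.not_halted_zero _) ?_
    have h1 : (Tape.mk' (pushAll (ListBlank.mk []) (l ++ [some x])) R).move Dir.left =
        Tape.mk' (pushAll (ListBlank.mk []) l) (R.cons (some x)) := by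
      rw [Tape.move_left_mk']
      simp [pushAll]
    rw [h1, next_cfg, mk'_cons_head]
    simp only [trans, MTM.moveOpt, Tape.write_mk', ListBlank.tail_cons]
    have h2 := ih (fun a ha => hl a (by simp [ha])) (R.cons (some x))
    rw [List.foldr_append]
    exact h2

theorem foldr_mk (l : List S.Sym) : l.foldr (fun a R => R.cons a) (ListBlank.mk []) =
    ListBlank.mk l := by
  induction l with
  | nil => rfl
  | cons a l ih => rw [List.foldr_cons, ih, ListBlank.cons_mk]

/-- The acceptance test in the sweep number `s`. -/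
def okAt (s : ℕ) (w : List I) : Bool := S.ok (S.dg s (S.X S.x0 w))

/-- The state at the beginning of the sweep number `s`. -/
def startSt (s : ℕ) : S.St := Sum.inl (S.toV (S.dg s S.x0), false)

theorem dg_zero_x0 : S.dg 0 S.x0 = S.x0 := by
  funext j
  have := S.hx0 j
  simp only [dg, pow_zero, Int.ediv_one]
  exact Int.emod_eq_of_lt this.1 this.2

theorem dg_succ_x0 (s : ℕ) : S.dg (s + 1) S.x0 = 0 := by
  funext j
  have h1 := S.hx0 j
  simp only [dg]
  have hb := S.bpos
  have h2 : S.x0 j / S.b ^ (s + 1) = 0 := by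
    apply Int.ediv_eq_zero_of_lt h1.1
    refine h1.2.trans_le ?_
    have h3 : (1 : ℤ) ≤ S.b ^ s := one_le_pow₀ (by omega)
    rw [pow_succ]
    nlinarith
  rw [h2]
  simp

/-- The configuration at the beginning of the sweep number `s`. -/
def sweepCfg (s : ℕ) (w : List I) : S.machine.Cfg :=
  S.cfg (S.startSt s) (Tape.mk' (ListBlank.mk []) (ListBlank.mk (S.cells s 0 S.x0 w)))

/-- The configuration at the end of the right sweep number `s`. -/
def endCfg (s : ℕ) (w : List I) : S.machine.Cfg :=
  S.cfg (Sum.inl (S.toV (S.dg s (S.X S.x0 w)), decide (s < w.length)))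
    (Tape.mk' (pushAll (ListBlank.mk []) (S.cells (s + 1) 0 S.x0 w)) (ListBlank.mk []))

theorem sweep_right (s : ℕ) (w : List I) :
    S.machine.Run (S.sweepCfg s w) w.length (S.endCfg s w) := by
  have h := S.right_sweep s w 0 S.x0 (ListBlank.mk [])
  simp only [Nat.not_lt_zero, decide_false, zero_add] at h
  exact h

theorem sweep_pass (s : ℕ) (w : List I) (hok : S.okAt s w = true) (hs : s < w.length) :
    S.machine.Run (S.endCfg s w) (w.length + 2) (S.sweepCfg (s + 1) w) := by
  refine MTM.Run.step (S.not_halted_inl _ _) ?_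
  have h1 : (Tape.mk' (pushAll (ListBlank.mk []) (S.cells (s + 1) 0 S.x0 w))
      (ListBlank.mk [])).head = none := rfl
  unfold endCfg
  rw [next_cfg, h1]
  have h2 : S.trans (Sum.inl (S.toV (S.dg s (S.X S.x0 w)), decide (s < w.length))) none =
      (Sum.inr 0, none, some Dir.left) := by
    simp only [trans, S.ofV_dg]
    have : S.ok (S.dg s (S.X S.x0 w)) = true := hok
    rw [this, decide_eq_true hs]
    rfl
  rw [h2]
  have h3 : (Tape.mk' (pushAll (ListBlank.mk []) (S.cells (s + 1) 0 S.x0 w))
      (ListBlank.mk [])).write none = (Tape.mk' (pushAll (ListBlank.mk [])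
        (S.cells (s + 1) 0 S.x0 w)) (ListBlank.mk [])) := by
    conv_lhs => rw [← h1]
    exact Tape.write_self _
  simp only [MTM.moveOpt, h3]
  have h4 := S.left_sweep (S.cells (s + 1) 0 S.x0 w) (S.cells_isSome _ _ _ _) (ListBlank.mk [])
  rw [S.cells_length, S.foldr_mk] at h4
  unfold sweepCfg startSt
  rw [S.dg_succ_x0]
  exact h4

theorem sweep_accept (s : ℕ) (w : List I) (hok : S.okAt s w = true) (hs : ¬ s < w.length) :
    ∃ c, S.machine.Run (S.endCfg s w) 1 c ∧ c.q = S.machine.accept := by
  refine ⟨_, MTM.Run.step (S.not_halted_inl _ _) (MTM.Run.refl _), ?_⟩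
  have h1 : (Tape.mk' (pushAll (ListBlank.mk []) (S.cells (s + 1) 0 S.x0 w))
      (ListBlank.mk [])).head = none := rfl
  unfold endCfg
  rw [next_cfg, h1]
  simp only [trans, S.ofV_dg, cfg]
  have : S.ok (S.dg s (S.X S.x0 w)) = true := hok
  rw [this, decide_eq_false hs]
  rfl

theorem sweep_reject (s : ℕ) (w : List I) (hok : S.okAt s w = false) :
    ∃ c, S.machine.Run (S.endCfg s w) 1 c ∧ c.q = S.machine.reject := by
  refine ⟨_, MTM.Run.step (S.not_halted_inl _ _) (MTM.Run.refl _), ?_⟩
  have h1 : (Tape.mk' (pushAll (ListBlank.mk []) (S.cells (s + 1) 0 S.x0 w))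
      (ListBlank.mk [])).head = none := rfl
  unfold endCfg
  rw [next_cfg, h1]
  simp only [trans, S.ofV_dg, cfg]
  have : S.ok (S.dg s (S.X S.x0 w)) = false := hok
  rw [this]
  rfl

/-- The input symbol of a letter. -/
def encI (i : I) : S.Sym := some (i, S.toV 0, false)

theorem cells_zero (w : List I) : ∀ (t : ℕ) (x : S.ι → ℤ), S.cells 0 t x w = w.map S.encI := by
  induction w with
  | nil => intro t x; rfl
  | cons i w ih =>
    intro t x
    simp only [cells, List.map_cons, ih, encI, S.carry_zero, Nat.not_lt_zero, decide_false]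

theorem init_eq (w : List I) : S.machine.init (w.map S.encI) = S.sweepCfg 0 w := by
  unfold sweepCfg startSt MTM.init cfg
  rw [S.cells_zero, S.dg_zero_x0]
  congr 1
  funext i
  have : (i : ℕ) = 0 := by omega
  rw [if_pos this]
  rfl

/-- The number of completed sweeps which pass the test, at most the length of the word. -/
def K (w : List I) : ℕ := Nat.find (p := fun s => S.okAt s w = false ∨ w.length ≤ s)
  ⟨w.length, Or.inr le_rfl⟩

theorem K_spec (w : List I) : S.okAt (S.K w) w = false ∨ w.length ≤ S.K w :=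
  Nat.find_spec (p := fun s => S.okAt s w = false ∨ w.length ≤ s) ⟨w.length, Or.inr le_rfl⟩

theorem K_min (w : List I) (s : ℕ) (hs : s < S.K w) : S.okAt s w = true ∧ s < w.length := by
  have := Nat.find_min (p := fun s => S.okAt s w = false ∨ w.length ≤ s)
    ⟨w.length, Or.inr le_rfl⟩ hs
  push Not at this
  simpa using this

theorem run_to (w : List I) : ∀ s : ℕ, s ≤ S.K w →
    S.machine.Run (S.machine.init (w.map S.encI)) (s * (2 * w.length + 2)) (S.sweepCfg s w)
  | 0, _ => by
    rw [S.init_eq, zero_mul]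
    exact MTM.Run.refl _
  | s + 1, hs => by
    have h1 := run_to w s (by omega)
    obtain ⟨h2, h3⟩ := S.K_min w s (by omega)
    have h4 := (h1.trans (S.sweep_right s w)).trans (S.sweep_pass s w h2 h3)
    convert! h4 using 1
    ring

/-- The running time. -/
def time (w : List I) : ℕ := S.K w * (2 * w.length + 2) + w.length + 1

theorem decides (w : List I) : S.machine.Decides (w.map S.encI) (S.time w)
    (S.okAt (S.K w) w) := by
  have h1 := (S.run_to w (S.K w) le_rfl).trans (S.sweep_right (S.K w) w)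
  cases hok : S.okAt (S.K w) w with
  | false =>
    obtain ⟨c, hc, hq⟩ := S.sweep_reject (S.K w) w hok
    exact (h1.trans hc).decides false hq
  | true =>
    have h2 : ¬ S.K w < w.length := by
      rcases S.K_spec w with h | h
      · rw [hok] at h; exact absurd h (by simp)
      · omega
    obtain ⟨c, hc, hq⟩ := S.sweep_accept (S.K w) w hok h2
    exact (h1.trans hc).decides true hq

theorem accept_iff (w : List I) : S.okAt (S.K w) w = true ↔ ∀ s ≤ w.length, S.okAt s w = true := by
  constructor
  · intro h s hs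
    have h2 : w.length ≤ S.K w := by
      rcases S.K_spec w with h' | h'
      · rw [h] at h'; exact absurd h' (by simp)
      · exact h'
    rcases Nat.lt_or_ge s (S.K w) with h3 | h3
    · exact (S.K_min w s h3).1
    · have : s = S.K w := by omega
      rw [this, h]
  · intro h
    apply h
    by_contra hc
    push Not at hc
    have := (S.K_min w w.length hc).2
    omega

/-- `K` counts the initial segments of passed tests. -/
theorem K_le_sum (w : List I) : (S.K w : ℕ) ≤
    ∑ s ∈ Finset.range w.length, if ∀ t ≤ s, S.okAt t w = true then 1 else 0 := by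
  classical
  have h0 : S.K w ≤ w.length := by
    by_contra hc
    push Not at hc
    have := (S.K_min w w.length hc).2
    omega
  calc S.K w = ∑ s ∈ Finset.range (S.K w), 1 := by simp
    _ ≤ ∑ s ∈ Finset.range (S.K w), if ∀ t ≤ s, S.okAt t w = true then 1 else 0 := by
        refine Finset.sum_le_sum fun s hs => ?_
        rw [if_pos]
        intro t ht
        exact (S.K_min w t (by rw [Finset.mem_range] at hs; omega)).1
    _ ≤ _ := Finset.sum_le_sum_of_subset (Finset.range_subset_range.2 h0)

end DSys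

end

end Pool.Agent.H45R3.AC
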