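import Pool.Agent.H45R3.AC.Walk

/-!
# Quadratic growth

If a finitely generated group has an element of infinite order generating a subgroup of infinite
index then its growth is at least quadratic (in the even-length words).
-/

namespace Pool.Agent.H45R3.AC

open Finset

section

variable {G : Type*} [Group G] {I : Type*}

/-- The value of a word in letters. -/
def ev (γ : I → G) (w : List I) : G := (w.map γ).prod

theorem ev_append (γ : I → G) (v w : List I) : ev γ (v ++ w) = ev γ v * ev γ w := by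
  simp [ev]

theorem pev_of_even (γ : I → G) (inv : I → I) (hinv : ∀ i, γ (inv i) = (γ i)⁻¹) :
    ∀ (k : ℕ) (l : List I), l.length = 2 * k →
      ∃ w : List (I × I), w.length = k ∧ pev γ w = ev γ l
  | 0, l, h => by
    have : l = [] := List.eq_nil_of_length_eq_zero (by omega)
    subst this
    exact ⟨[], rfl, rfl⟩
  | k + 1, [], h => by simp at h
  | k + 1, [a], h => by simp at h; omega
  | k + 1, a :: b :: l, h => by
    obtain ⟨w, hw, he⟩ := pev_of_even γ inv hinv k l (by simp at h; omega)
    refine ⟨(a, inv b) :: w, by simp [hw], ?_⟩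
    rw [pev_cons, he]
    simp [ev, hinv, mul_assoc]

theorem pev_replicate (γ : I → G) (i : I) (k : ℕ) : pev γ (List.replicate k (i, i)) = 1 := by
  induction k with
  | zero => rfl
  | succ k ih => rw [List.replicate_succ, pev_cons, ih]; simp

theorem pev_flatten_replicate (γ : I → G) (v : List (I × I)) (k : ℕ) :
    pev γ (List.replicate k v).flatten = pev γ v ^ k := by
  induction k with
  | zero => simp [pev]
  | succ k ih => rw [List.replicate_succ, List.flatten_cons, pev_append, ih, pow_succ']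

theorem exists_list_ev (γ : I → G) (inv : I → I) (hinv : ∀ i, γ (inv i) = (γ i)⁻¹)
    (z : G) (hz : z ∈ Subgroup.closure (Set.range γ)) : ∃ l : List I, ev γ l = z := by
  induction hz using Subgroup.closure_induction with
  | mem x hx =>
    obtain ⟨i, rfl⟩ := hx
    exact ⟨[i], by simp [ev]⟩
  | one => exact ⟨[], rfl⟩
  | mul x y _ _ hx hy =>
    obtain ⟨a, rfl⟩ := hx
    obtain ⟨b, rfl⟩ := hy
    exact ⟨a ++ b, ev_append γ a b⟩
  | inv x _ hx =>
    obtain ⟨a, rfl⟩ := hx
    refine ⟨(a.map inv).reverse, ?_⟩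
    unfold ev
    rw [List.map_reverse, List.map_map, List.prod_inv_reverse, List.map_map]
    have : (γ ∘ inv) = ((fun x => x⁻¹) ∘ γ) := by
      funext i
      exact hinv i
    rw [this]

end

section

variable {G : Type*} [Group G] {I : Type*} [Fintype I] [Nonempty I]

/-- The cosets reached by words of `r` pairs. -/
def Y (γ : I → G) (z : G) : ℕ → Set (G ⧸ Subgroup.zpowers z)
  | 0 => {QuotientGroup.mk 1}
  | r + 1 => ⋃ p : I × I, (fun x => (γ p.1 * (γ p.2)⁻¹) • x) '' Y γ z r

omit [Nonempty I] in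
theorem Y_finite (γ : I → G) (z : G) (r : ℕ) : (Y γ z r).Finite := by
  induction r with
  | zero => exact Set.finite_singleton _
  | succ r ih => exact Set.finite_iUnion fun p => ih.image _

omit [Fintype I] in
theorem Y_mono (γ : I → G) (z : G) (r : ℕ) : Y γ z r ⊆ Y γ z (r + 1) := by
  intro x hx
  obtain ⟨i⟩ := ‹Nonempty I›
  refine Set.mem_iUnion.2 ⟨(i, i), x, hx, by simp⟩

omit [Fintype I] [Nonempty I] in
theorem Y_words (γ : I → G) (z : G) (r : ℕ) (x : G ⧸ Subgroup.zpowers z) (hx : x ∈ Y γ z r) :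
    ∃ w : List (I × I), w.length = r ∧ (QuotientGroup.mk (pev γ w) : G ⧸ Subgroup.zpowers z) = x := by
  induction r generalizing x with
  | zero => exact ⟨[], rfl, (Set.mem_singleton_iff.1 hx).symm⟩
  | succ r ih =>
    obtain ⟨p, y, hy, rfl⟩ := Set.mem_iUnion.1 hx
    obtain ⟨w, hw, rfl⟩ := ih y hy
    exact ⟨p :: w, by simp [hw], by rw [pev_cons]; rfl⟩

theorem Y_card (γ : I → G) (inv : I → I) (hinv : ∀ i, γ (inv i) = (γ i)⁻¹)
    (hgen : Subgroup.closure (Set.range γ) = ⊤) (z : G)
    (hinf : Infinite (G ⧸ Subgroup.zpowers z)) (r : ℕ) : r + 1 ≤ (Y γ z r).ncard := by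
  induction r with
  | zero => simp [Y]
  | succ r ih =>
    by_contra hc
    push Not at hc
    have hle := Set.ncard_le_ncard (Y_mono γ z r) (Y_finite γ z (r + 1))
    have heq : Y γ z r = Y γ z (r + 1) :=
      Set.eq_of_subset_of_ncard_le (Y_mono γ z r) (by omega) (Y_finite γ z (r + 1))
    have hclosed : ∀ i j, ∀ x ∈ Y γ z r, (γ i * (γ j)⁻¹) • x ∈ Y γ z r := by
      intro i j x hx
      rw [heq]
      exact Set.mem_iUnion.2 ⟨(i, j), x, hx, rfl⟩
    obtain ⟨j⟩ := ‹Nonempty I›
    let Z : Set (G ⧸ Subgroup.zpowers z) := Y γ z r ∪ (fun x => (γ j)⁻¹ • x) '' Y γ z r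
    have hZ : ∀ i, ∀ x ∈ Z, γ i • x ∈ Z := by
      rintro i x (hx | ⟨y, hy, rfl⟩)
      · right
        refine ⟨(γ j * γ i) • x, ?_, ?_⟩
        · have := hclosed j (inv i) x hx
          rwa [hinv, inv_inv] at this
        · simp [smul_smul]
      · left
        have := hclosed i j y hy
        rwa [← smul_smul] at this
    have hZinv : ∀ i, ∀ x ∈ Z, (γ i)⁻¹ • x ∈ Z := fun i x hx => by
      have := hZ (inv i) x hx
      rwa [hinv] at this
    have hall : ∀ g : G, ∀ x ∈ Z, g • x ∈ Z := by
      intro g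
      have hg : g ∈ Subgroup.closure (Set.range γ) := by rw [hgen]; trivial
      induction hg using Subgroup.closure_induction with
      | mem x hx =>
        obtain ⟨i, rfl⟩ := hx
        exact hZ i
      | one => intro x hx; simpa using hx
      | mul a b _ _ ha hb => intro x hx; rw [← smul_smul]; exact ha _ (hb _ hx)
      | inv a ha' ha =>
        -- use finiteness? instead prove by words
        intro x hx
        obtain ⟨l, hl⟩ := exists_list_ev γ inv hinv a⁻¹ (Subgroup.inv_mem _ ha')
        rw [← hl]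
        clear hl
        induction l with
        | nil => simpa [ev] using hx
        | cons b l ih2 =>
          have : ev γ (b :: l) = γ b * ev γ l := by simp [ev]
          rw [this, ← smul_smul]
          exact hZ b _ ih2
    have hbase : (QuotientGroup.mk 1 : G ⧸ Subgroup.zpowers z) ∈ Y γ z r := by
      clear * -
      induction r with
      | zero => simp [Y]
      | succ r ih => exact Y_mono γ z r ih
    have htop : Z = Set.univ := by
      refine Set.eq_univ_of_forall fun x => ?_
      obtain ⟨g, rfl⟩ := QuotientGroup.mk_surjective x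
      have := hall g _ (Or.inl hbase)
      rwa [MulAction.Quotient.smul_mk, smul_eq_mul, mul_one] at this
    have hfin : Z.Finite := (Y_finite γ z r).union ((Y_finite γ z r).image _)
    rw [htop] at hfin
    exact (Set.infinite_univ_iff.2 hinf) hfin

/-- Quadratic growth in even-length words. -/
theorem growth (γ : I → G) (inv : I → I) (hinv : ∀ i, γ (inv i) = (γ i)⁻¹)
    (hgen : Subgroup.closure (Set.range γ) = ⊤) (z : G) (hz : ∀ n : ℕ, 0 < n → z ^ n ≠ 1)
    (hinf : Infinite (G ⧸ Subgroup.zpowers z)) :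
    ∃ q : ℝ, 0 < q ∧ q ≤ 1 ∧ ∀ r : ℕ, ∃ W : Finset (List (I × I)),
      (∀ w ∈ W, w.length = r) ∧ Set.InjOn (pev γ) (W : Set (List (I × I))) ∧
      q * (r : ℝ) ^ 2 ≤ W.card ∧ W.Nonempty := by
  classical
  obtain ⟨l, hl⟩ := exists_list_ev γ inv hinv z (by rw [hgen]; trivial)
  obtain ⟨v, hv, hve⟩ := pev_of_even γ inv hinv l.length (l ++ l) (by simp; omega)
  have hve' : pev γ v = z ^ 2 := by rw [hve, ev_append, hl, sq]
  set ℓ := l.length with hℓ
  have hℓ0 : 0 < ℓ := by
    rcases Nat.eq_zero_or_pos ℓ with h | h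
    · exfalso
      have : l = [] := List.eq_nil_of_length_eq_zero h
      subst this
      exact hz 1 one_pos (by simpa [ev] using hl.symm)
    · exact h
  have hzinj : ∀ a b : ℕ, z ^ a = z ^ b → a = b := by
    have key : ∀ a b : ℕ, a < b → z ^ a ≠ z ^ b := by
      intro a b hab h
      have h2 : z ^ (b - a) = 1 := by
        have : z ^ b = z ^ a * z ^ (b - a) := by rw [← pow_add]; congr 1; omega
        rw [this] at h
        simpa using h.symm
      exact hz _ (by omega) h2
    intro a b h
    rcases lt_trichotomy a b with h1 | h1 | h1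
    · exact absurd h (key a b h1)
    · exact h1
    · exact absurd h.symm (key b a h1)
  obtain ⟨i0⟩ := ‹Nonempty I›
  refine ⟨1 / (4 * ℓ), by positivity, ?_, ?_⟩
  · rw [div_le_one (by positivity)]
    have : (1 : ℝ) ≤ ℓ := by exact_mod_cast hℓ0
    linarith
  intro r
  set K := r / (2 * ℓ) with hK
  have hKr : ℓ * K ≤ r := by
    have h1 : 2 * ℓ * K ≤ r := Nat.mul_div_le r (2 * ℓ)
    have h2 : ℓ * K ≤ 2 * ℓ * K := by nlinarith
    exact h2.trans h1
  set a := r - ℓ * K with ha
  choose! wd hwd1 hwd2 using fun x hx => Y_words γ z a x hx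
  have hYf := Y_finite γ z a
  let mk : (G ⧸ Subgroup.zpowers z) × ℕ → List (I × I) := fun p =>
    wd p.1 ++ ((List.replicate p.2 v).flatten ++ List.replicate (ℓ * (K - p.2)) (i0, i0))
  have hpev : ∀ p, pev γ (mk p) = pev γ (wd p.1) * z ^ (2 * p.2) := by
    intro p
    simp only [mk, pev_append, pev_flatten_replicate, pev_replicate, mul_one, hve']
    rw [pow_mul]
  let P : Finset ((G ⧸ Subgroup.zpowers z) × ℕ) := hYf.toFinset ×ˢ Finset.range (K + 1)
  have hinjP : ∀ p ∈ P, ∀ p' ∈ P, pev γ (mk p) = pev γ (mk p') → p = p' := by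
    intro p hp p' hp' h
    rw [hpev, hpev] at h
    simp only [P, Finset.mem_product, Set.Finite.mem_toFinset, Finset.mem_range] at hp hp'
    have h1 : p.1 = p'.1 := by
      rw [← hwd2 p.1 hp.1, ← hwd2 p'.1 hp'.1]
      rw [QuotientGroup.eq]
      have : (pev γ (wd p.1))⁻¹ * pev γ (wd p'.1) = z ^ (2 * p.2) * (z ^ (2 * p'.2))⁻¹ := by
        rw [inv_mul_eq_iff_eq_mul, ← mul_assoc, h]
        simp
      rw [this]
      exact Subgroup.mul_mem _ (Subgroup.pow_mem _ (Subgroup.mem_zpowers z) _)
        (Subgroup.inv_mem _ (Subgroup.pow_mem _ (Subgroup.mem_zpowers z) _))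
    rw [h1] at h
    have h2 := hzinj _ _ (mul_left_cancel h)
    exact Prod.ext h1 (by omega)
  refine ⟨P.image mk, ?_, ?_, ?_, ?_⟩
  · intro w hw
    obtain ⟨p, hp, rfl⟩ := Finset.mem_image.1 hw
    simp only [P, Finset.mem_product, Set.Finite.mem_toFinset, Finset.mem_range] at hp
    simp only [mk, List.length_append, List.length_flatten, List.map_replicate,
      List.sum_replicate, List.length_replicate, hwd1 p.1 hp.1, hv, smul_eq_mul]
    have h1 : p.2 * ℓ + ℓ * (K - p.2) = ℓ * K := by
      rw [mul_comm p.2 ℓ, ← mul_add]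
      congr 1
      omega
    omega
  · intro w hw w' hw' h
    obtain ⟨p, hp, rfl⟩ := Finset.mem_image.1 (Finset.mem_coe.1 hw)
    obtain ⟨p', hp', rfl⟩ := Finset.mem_image.1 (Finset.mem_coe.1 hw')
    rw [hinjP p hp p' hp' h]
  · rw [Finset.card_image_of_injOn (fun p hp p' hp' h =>
      hinjP p hp p' hp' (congrArg (pev γ) h)), Finset.card_product, Finset.card_range]
    have h1 : a + 1 ≤ hYf.toFinset.card := by
      have := Y_card γ inv hinv hgen z hinf a
      rwa [Set.ncard_eq_toFinset_card _ hYf] at this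
    have h2 : r ≤ 2 * a := by
      have h3 : 2 * ℓ * K ≤ r := Nat.mul_div_le r (2 * ℓ)
      have : 2 * (ℓ * K) ≤ r := by rw [← mul_assoc]; exact h3
      omega
    have h3 : r ≤ 2 * ℓ * (K + 1) := by
      have := Nat.lt_mul_div_succ r (show 0 < 2 * ℓ by omega)
      exact this.le
    have h1' : (a : ℝ) ≤ hYf.toFinset.card := by
      have : a ≤ hYf.toFinset.card := by omega
      exact_mod_cast this
    have h2' : (r : ℝ) ≤ 2 * a := by exact_mod_cast h2
    have h3' : (r : ℝ) ≤ 2 * ℓ * (K + 1) := by exact_mod_cast h3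
    push_cast
    have hℓ' : (0 : ℝ) < ℓ := by exact_mod_cast hℓ0
    rw [div_mul_eq_mul_div, one_mul, div_le_iff₀ (by positivity)]
    have h4 : (r : ℝ) * r ≤ (2 * a) * (2 * ℓ * (K + 1)) :=
      mul_le_mul h2' h3' (Nat.cast_nonneg _) (by positivity)
    have h5 : (2 * (a : ℝ)) * (2 * ℓ * (K + 1)) ≤ (2 * hYf.toFinset.card) * (2 * ℓ * (K + 1)) :=
      mul_le_mul_of_nonneg_right (by linarith) (by positivity)
    nlinarith
  · refine Finset.Nonempty.image ?_ _
    refine Finset.Nonempty.product ?_ ⟨0, by simp⟩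
    have := Y_card γ inv hinv hgen z hinf a
    rw [Set.ncard_eq_toFinset_card _ hYf] at this
    exact Finset.card_pos.1 (by omega)

end

end Pool.Agent.H45R3.AC
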