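import Pool.Agent.H45R3.AC.Order
import Pool.Agent.H45R3.AC.Digit
import Pool.Agent.H45R3.AC.Counter

/-!
# Linear average-case complexity of the word problem in groups of rational matrices
-/

namespace Pool.Agent.H45R3.AC

open Finset

noncomputable section

/-- Equality of residues from equality of digits. -/
theorem digits_eq_iff (b : ℤ) (hb : 2 ≤ b) (x y : ℤ) (k : ℕ) :
    (∀ t < k, (x / b ^ t) % b = (y / b ^ t) % b) ↔ x % b ^ k = y % b ^ k := by
  have hmul : ∀ (z : ℤ) (k : ℕ), z % b ^ (k + 1) = z % b ^ k + b ^ k * ((z / b ^ k) % b) := by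
    intro z k
    have hp : 0 < b ^ k := by positivity
    rw [pow_succ, Int.emod_def z (b ^ k * b), Int.emod_def z (b ^ k),
      Int.emod_def (z / b ^ k) b, ← Int.ediv_ediv_of_nonneg hp.le]
    ring
  induction k with
  | zero => simp
  | succ k ih =>
    have hp : 0 < b ^ k := by positivity
    constructor
    · intro h
      rw [hmul, hmul, h k (by omega), ih.1 (fun t ht => h t (by omega))]
    · intro h
      rw [hmul, hmul] at h
      have h1 : x % b ^ k = y % b ^ k := by
        have e1 : (x % b ^ k + b ^ k * ((x / b ^ k) % b)) % b ^ k = x % b ^ k := by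
          rw [Int.add_mul_emod_self_left, Int.emod_emod]
        have e2 : (y % b ^ k + b ^ k * ((y / b ^ k) % b)) % b ^ k = y % b ^ k := by
          rw [Int.add_mul_emod_self_left, Int.emod_emod]
        rw [← e1, ← e2, h]
      have h2 : (x / b ^ k) % b = (y / b ^ k) % b := by
        rw [h1] at h
        have := add_left_cancel h
        exact mul_left_cancel₀ hp.ne' this
      intro t ht
      rcases Nat.lt_succ_iff_lt_or_eq.1 ht with h3 | h3
      · exact ih.2 h1 t h3
      · subst h3; exact h2

namespace IntData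

variable {m : ℕ} {I : Type} (d : IntData m I)

/-- The action of a letter on a matrix with a scalar. -/
def act (i : I) (x : Option (Fin m × Fin m) → ℤ) : Option (Fin m × Fin m) → ℤ
  | none => d.D * x none
  | some (a, c) => ∑ b, x (some (a, b)) * d.N i b c

theorem act_foldl (w : List I) (x : Option (Fin m × Fin m) → ℤ) :
    (w.foldl (fun x i => d.act i x) x) none = (d.D : ℤ) ^ w.length * x none ∧
    ∀ a c, (w.foldl (fun x i => d.act i x) x) (some (a, c)) =
      ∑ b, x (some (a, b)) * d.prodN w b c := by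
  induction w generalizing x with
  | nil =>
    refine ⟨by simp, fun a c => ?_⟩
    simp only [List.foldl_nil, prodN, List.map_nil, List.prod_nil, Matrix.one_apply, mul_ite,
      mul_one, mul_zero]
    rw [Finset.sum_ite_eq' Finset.univ c]
    simp
  | cons i w ih =>
    rw [List.foldl_cons]
    refine ⟨?_, fun a c => ?_⟩
    · rw [(ih _).1, List.length_cons, pow_succ]
      simp only [act]
      ring
    · rw [(ih _).2]
      have h2 : d.prodN (i :: w) = d.N i * d.prodN w := by simp [prodN]
      rw [h2]
      simp only [act, Matrix.mul_apply, Finset.sum_mul, Finset.mul_sum]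
      rw [Finset.sum_comm]
      refine Finset.sum_congr rfl fun b _ => Finset.sum_congr rfl fun e _ => ?_
      ring

variable [Fintype I]

theorem exists_act_bound : ∃ A : ℤ, 0 ≤ A ∧ ∀ i (B : ℤ) x, (∀ j, |x j| ≤ B) →
    ∀ j, |d.act i x j| ≤ A * B := by
  obtain ⟨b, hb1, hbD, hb⟩ := d.exists_bound
  refine ⟨m * b + b, by positivity, ?_⟩
  intro i B x hx j
  have hB : 0 ≤ B := (abs_nonneg _).trans (hx none)
  have hbi : ∀ c e, |d.N i c e| ≤ (b : ℤ) := fun c e => by
    have := hb [i] c e
    simpa [prodN] using this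
  rcases j with _ | ⟨a, c⟩
  · simp only [act]
    rw [abs_mul, abs_of_nonneg (show (0 : ℤ) ≤ d.D by positivity)]
    have h1 : (d.D : ℤ) ≤ b := by exact_mod_cast hbD
    have h2 := hx none
    have h3 : (0 : ℤ) ≤ m * b := by positivity
    calc (d.D : ℤ) * |x none| ≤ b * B := mul_le_mul h1 h2 (abs_nonneg _) (by positivity)
      _ ≤ (m * b + b) * B := mul_le_mul_of_nonneg_right (by linarith) hB
  · simp only [act]
    refine (Finset.abs_sum_le_sum_abs _ _).trans ?_
    have h1 : ∀ e : Fin m, |x (some (a, e)) * d.N i e c| ≤ B * b := fun e => by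
      rw [abs_mul]
      exact mul_le_mul (hx _) (hbi e c) (abs_nonneg _) hB
    refine (Finset.sum_le_sum fun e _ => h1 e).trans ?_
    rw [Finset.sum_const, Finset.card_univ, Fintype.card_fin, nsmul_eq_mul]
    have h2 : (0 : ℤ) ≤ b * B := by positivity
    nlinarith

/-- The digit system. -/
def dsys (b : ℤ) (hb : 2 ≤ b) : DSys I where
  ι := Option (Fin m × Fin m)
  F := d.act
  add := by
    intro i x y
    funext j
    rcases j with _ | ⟨a, c⟩
    · simp only [act, Pi.add_apply]; ring
    · simp only [act, Pi.add_apply, add_mul, Finset.sum_add_distrib]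
  smul := by
    intro i r x
    funext j
    rcases j with _ | ⟨a, c⟩
    · simp only [act, Pi.smul_apply, smul_eq_mul]; ring
    · simp only [act, Pi.smul_apply, smul_eq_mul, Finset.mul_sum, mul_assoc]
  b := b
  hb := hb
  A := d.exists_act_bound.choose + b
  hAb := by have := d.exists_act_bound.choose_spec.1; omega
  hA := by
    intro i B x hx j
    have h1 := d.exists_act_bound.choose_spec.2 i B x hx j
    have hB : 0 ≤ B := (abs_nonneg _).trans (hx none)
    nlinarith
  x0 := fun j => match j with
    | none => 1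
    | some (a, c) => if a = c then 1 else 0
  hx0 := by
    intro j
    rcases j with _ | ⟨a, c⟩
    · simp only; omega
    · simp only
      split_ifs <;> omega
  ok := fun x => decide (∀ a c, x (some (a, c)) = if a = c then x none else 0)

theorem okAt_iff (b : ℤ) (hb : 2 ≤ b) (k : ℕ) (w : List I) :
    (∀ t < k, (d.dsys b hb).okAt t w = true) ↔ ∀ a c,
      (b ^ k : ℤ) ∣ (d.prodN w - ((d.D : ℤ) ^ w.length) • (1 : Matrix (Fin m) (Fin m) ℤ)) a c := by
  have hX : ∀ w, (d.dsys b hb).X (d.dsys b hb).x0 w none = (d.D : ℤ) ^ w.length ∧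
      ∀ a c, (d.dsys b hb).X (d.dsys b hb).x0 w (some (a, c)) = d.prodN w a c := by
    intro w
    have h := d.act_foldl w (d.dsys b hb).x0
    refine ⟨?_, fun a c => ?_⟩
    · refine h.1.trans ?_
      change _ * (1 : ℤ) = _
      ring
    · refine (h.2 a c).trans ?_
      have : ∀ e : Fin m, (d.dsys b hb).x0 (some (a, e)) * d.prodN w e c =
          if a = e then d.prodN w e c else 0 := fun e => by
        change (if a = e then (1 : ℤ) else 0) * _ = _
        split_ifs <;> simp
      rw [Finset.sum_congr rfl fun e _ => this e, Finset.sum_ite_eq]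
      simp
  have h1 : ∀ t, (d.dsys b hb).okAt t w = true ↔ ∀ a c,
      (d.prodN w a c / b ^ t) % b =
        ((((d.D : ℤ) ^ w.length) • (1 : Matrix (Fin m) (Fin m) ℤ)) a c / b ^ t) % b := by
    intro t
    have : (d.dsys b hb).okAt t w = decide (∀ a c,
        ((d.dsys b hb).X (d.dsys b hb).x0 w (some (a, c)) / b ^ t) % b =
          if a = c then ((d.dsys b hb).X (d.dsys b hb).x0 w none / b ^ t) % b else 0) := rfl
    rw [this, decide_eq_true_iff]
    refine forall_congr' fun a => forall_congr' fun c => ?_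
    rw [(hX w).1, (hX w).2]
    by_cases hac : a = c
    · subst hac
      rw [if_pos rfl, Matrix.smul_apply, Matrix.one_apply_eq, smul_eq_mul, mul_one]
    · rw [if_neg hac, Matrix.smul_apply, Matrix.one_apply_ne hac, smul_zero]
      simp
  constructor
  · intro h a c
    have h2 : ∀ t < k, (d.prodN w a c / b ^ t) % b =
        ((((d.D : ℤ) ^ w.length) • (1 : Matrix (Fin m) (Fin m) ℤ)) a c / b ^ t) % b :=
      fun t ht => (h1 t).1 (h t ht) a c
    have h3 := (digits_eq_iff b hb _ _ k).1 h2
    rw [Matrix.sub_apply]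
    exact Int.dvd_of_emod_eq_zero (Int.emod_eq_emod_iff_emod_sub_eq_zero.1 h3)
  · intro h t ht
    rw [h1]
    intro a c
    have h2 := h a c
    rw [Matrix.sub_apply] at h2
    have h3 : d.prodN w a c % b ^ k =
        (((d.D : ℤ) ^ w.length) • (1 : Matrix (Fin m) (Fin m) ℤ)) a c % b ^ k :=
      ((Int.modEq_iff_dvd).2 h2).symm
    exact (digits_eq_iff b hb _ _ k).2 h3 t ht

end IntData

theorem sum_inv_sq_le (n : ℕ) : ∑ s ∈ Finset.range n, 1 / ((s : ℝ) + 1) ^ 2 ≤ 2 - 1 / (n : ℝ) := by
  induction n with
  | zero => simp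
  | succ n ih =>
    rw [Finset.sum_range_succ]
    rcases Nat.eq_zero_or_pos n with h | h
    · subst h; norm_num
    · have hn : (0 : ℝ) < n := by exact_mod_cast h
      have h1 : 1 / ((n : ℝ) + 1) ^ 2 ≤ 1 / n - 1 / (n + 1) := by
        rw [div_sub_div _ _ hn.ne' (by positivity), div_le_div_iff₀ (by positivity) (by positivity)]
        nlinarith
      push_cast
      linarith

/-- The core statement, for integer data. -/
theorem core {m r : ℕ} (hr : 0 < r) (f : Fin r → GL (Fin m) ℚ)
    (d : IntData m (Fin r × Bool)) (hD : IsUnit ((d.D : ℕ) : ℚ))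
    (hf : ∀ a, d.gl ℚ hD a = bif a.2 then f a.1 else (f a.1)⁻¹) : LinearAverageWP f := by
  classical
  have hval : ∀ w : List (Fin r × Bool), wordVal f w = ev (d.gl ℚ hD) w := by
    intro w
    unfold wordVal ev
    congr 2
    funext a
    exact (hf a).symm
  have hne : Nonempty (Fin r × Bool) := ⟨(⟨0, hr⟩, true)⟩
  have hcard : (Fintype.card (Fin r × Bool) : ℝ) = 2 * r := by
    simp [mul_comm]
  have hrpos : (0 : ℝ) < 2 * r := by positivity
  obtain ⟨p, hpge, hpp⟩ := Nat.exists_infinite_primes (d.D + 1)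
  have hcop : Nat.Coprime d.D p := by
    rw [Nat.coprime_comm]
    exact (Nat.Prime.coprime_iff_not_dvd hpp).2 fun h => by
      have := Nat.le_of_dvd d.D_pos h
      omega
  have := Fact.mk hpp
  rcases d.dichotomy hD p hcop with ⟨Q, iQ, iQ', q0, nx, e, h⟩ | ⟨C, hC0, hC⟩
  · -- counter machine
    have hE : ∃ E : ℤ, 0 ≤ E ∧ ∀ i q, |e i q| ≤ E := by
      refine ⟨∑ i, ∑ q, |e i q|, Finset.sum_nonneg fun i _ => Finset.sum_nonneg fun q _ =>
        abs_nonneg _, fun i q => ?_⟩
      refine (Finset.single_le_sum (f := fun q => |e i q|) (fun _ _ => abs_nonneg _)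
        (Finset.mem_univ q)).trans ?_
      exact Finset.single_le_sum (f := fun i => ∑ q, |e i q|)
        (fun i _ => Finset.sum_nonneg fun q _ => abs_nonneg _) (Finset.mem_univ i)
    obtain ⟨E, hE0, hE⟩ := hE
    let S : CSys (Fin r × Bool) := ⟨Q, q0, nx, e, E, hE, hE0⟩
    choose T hT1 hT2 using S.decides
    refine ⟨2, S.machine, CSys.encI, T, E + 3, ?_, ?_, ?_, ?_⟩
    · intro a b hab
      exact Sum.inl.inj (Option.some.inj hab)
    · intro a h
      exact Option.some_ne_none _ h
    · intro w
      refine ⟨_, hT2 w, ?_⟩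
      rw [decide_eq_true_iff, hval]
      exact (h w).symm
    · intro n hn
      have hn' : (1 : ℝ) ≤ n := by exact_mod_cast hn
      have h1 : ∀ v : Fin n → Fin r × Bool, (T (List.ofFn v) : ℝ) ≤ (E + 3) * n := by
        intro v
        have h2 := hT1 (List.ofFn v)
        rw [List.length_ofFn] at h2
        have h3 : (T (List.ofFn v) : ℝ) ≤ (E + 1) * n + 2 := by exact_mod_cast h2
        linarith
      have h4 : (∑ v : Fin n → Fin r × Bool, (T (List.ofFn v) : ℝ)) ≤
          (2 * r) ^ n * ((E + 3) * n) := by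
        refine (Finset.sum_le_sum fun v _ => h1 v).trans (le_of_eq ?_)
        rw [Finset.sum_const, Finset.card_univ, Fintype.card_fun, Fintype.card_fin, nsmul_eq_mul]
        push_cast
        rw [← hcard]
      rw [div_le_iff₀ (by positivity)]
      linarith
  · -- digit machine
    obtain ⟨κ, hκ, hinj⟩ := d.inj_radius hD p hpp.two_le hcop
    have hb : (2 : ℤ) ≤ (p : ℤ) ^ κ := by
      have h1 : 2 ≤ p ^ κ := by
        calc 2 ≤ p := hpp.two_le
          _ ≤ p ^ κ := Nat.le_self_pow hκ.ne' p
      exact_mod_cast h1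
    set S := d.dsys ((p : ℤ) ^ κ) hb with hS
    have hok : ∀ (w : List (Fin r × Bool)) (s : ℕ), (∀ t ≤ s, S.okAt t w = true) ↔
        ev (d.gl (ZMod (p ^ (κ * (s + 1)))) (d.isUnit_zmod hcop _)) w = 1 := by
      intro w s
      rw [d.ev_zmod_eq_one_iff]
      have h1 := d.okAt_iff ((p : ℤ) ^ κ) hb (s + 1) w
      rw [← hS] at h1
      have h2 : (∀ t ≤ s, S.okAt t w = true) ↔ (∀ t < s + 1, S.okAt t w = true) :=
        ⟨fun h t ht => h t (by omega), fun h t ht => h t (by omega)⟩
      rw [h2, h1]
      have h3 : (((p : ℤ) ^ κ) ^ (s + 1)) = ((p ^ (κ * (s + 1)) : ℕ) : ℤ) := by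
        rw [← pow_mul]; push_cast; rfl
      rw [h3]
    refine ⟨1, S.machine, S.encI, S.time, 2 + 12 * C, ?_, ?_, ?_, ?_⟩
    · intro a b hab
      exact (Prod.mk.inj (Option.some.inj hab)).1
    · intro a h
      exact Option.some_ne_none _ h
    · intro w
      refine ⟨_, S.decides w, ?_⟩
      rw [S.accept_iff, hok, hval]
      constructor
      · intro h
        exact hinj _ w (by gcongr; omega) h
      · intro h
        exact d.ev_eq_one_of_rat hD _ _ w h
    · intro n hn
      have hn' : (1 : ℝ) ≤ n := by exact_mod_cast hn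
      have hn0 : (0 : ℝ) < n := by linarith
      -- bound of the sum of K
      have hK : (∑ v : Fin n → Fin r × Bool, (S.K (List.ofFn v) : ℝ)) ≤
          3 * C * (2 * r) ^ n := by
        have h1 : ∀ v : Fin n → Fin r × Bool, (S.K (List.ofFn v) : ℝ) ≤
            ∑ s ∈ Finset.range n, if ev (d.gl (ZMod (p ^ (κ * (s + 1))))
              (d.isUnit_zmod hcop _)) (List.ofFn v) = 1 then (1 : ℝ) else 0 := by
          intro v
          have h2 := S.K_le_sum (List.ofFn v)
          rw [List.length_ofFn] at h2
          have h3 : (S.K (List.ofFn v) : ℝ) ≤ ((∑ s ∈ Finset.range n,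
            if ∀ t ≤ s, S.okAt t (List.ofFn v) = true then 1 else 0 : ℕ) : ℝ) := by
            exact_mod_cast h2
          refine h3.trans (le_of_eq ?_)
          push_cast
          refine Finset.sum_congr rfl fun s _ => ?_
          simp only [hok]
        refine (Finset.sum_le_sum fun v _ => h1 v).trans ?_
        rw [Finset.sum_comm]
        have h4 : ∀ s ∈ Finset.range n, (∑ v : Fin n → Fin r × Bool,
            if ev (d.gl (ZMod (p ^ (κ * (s + 1)))) (d.isUnit_zmod hcop _)) (List.ofFn v) = 1
              then (1 : ℝ) else 0) ≤ C * (1 / ((s : ℝ) + 1) ^ 2 + 1 / n) * (2 * r) ^ n := by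
          intro s _
          have h5 := hC (κ * (s + 1)) n (by positivity) (by omega)
          rw [hcard] at h5
          rw [Finset.sum_boole]
          refine h5.trans ?_
          refine mul_le_mul_of_nonneg_right ?_ (by positivity)
          refine mul_le_mul_of_nonneg_left ?_ hC0
          have h6 : 1 / (((κ * (s + 1) : ℕ) : ℝ)) ^ 2 ≤ 1 / ((s : ℝ) + 1) ^ 2 := by
            apply one_div_le_one_div_of_le (by positivity)
            apply pow_le_pow_left₀ (by positivity)
            push_cast
            have : (1 : ℝ) ≤ κ := by exact_mod_cast hκ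
            nlinarith [show (0 : ℝ) ≤ s by positivity]
          linarith
        refine (Finset.sum_le_sum h4).trans ?_
        rw [← Finset.sum_mul, ← Finset.mul_sum, Finset.sum_add_distrib]
        refine mul_le_mul_of_nonneg_right ?_ (by positivity)
        rw [mul_comm 3 C]
        refine mul_le_mul_of_nonneg_left ?_ hC0
        have h7 := sum_inv_sq_le n
        have h8 : ∑ s ∈ Finset.range n, 1 / (n : ℝ) = 1 := by
          rw [Finset.sum_const, Finset.card_range, nsmul_eq_mul, mul_one_div_cancel hn0.ne']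
        have h9 : 0 ≤ 1 / (n : ℝ) := by positivity
        linarith
      have hsum : (∑ v : Fin n → Fin r × Bool, (S.time (List.ofFn v) : ℝ)) =
          (2 * n + 2) * (∑ v : Fin n → Fin r × Bool, (S.K (List.ofFn v) : ℝ)) +
            (n + 1) * (2 * r) ^ n := by
        rw [Finset.mul_sum, ← hcard]
        have : ((n : ℝ) + 1) * (Fintype.card (Fin r × Bool) : ℝ) ^ n =
            ∑ v : Fin n → Fin r × Bool, ((n : ℝ) + 1) := by
          rw [Finset.sum_const, Finset.card_univ, Fintype.card_fun, Fintype.card_fin,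
            nsmul_eq_mul]
          push_cast
          ring
        rw [this, ← Finset.sum_add_distrib]
        refine Finset.sum_congr rfl fun v _ => ?_
        simp only [DSys.time, List.length_ofFn]
        push_cast
        ring
      rw [div_le_iff₀ (by positivity), hsum]
      have h1 : (2 * (n : ℝ) + 2) * (∑ v : Fin n → Fin r × Bool, (S.K (List.ofFn v) : ℝ)) ≤
          (2 * n + 2) * (3 * C * (2 * r) ^ n) :=
        mul_le_mul_of_nonneg_left hK (by positivity)
      have h2 : (2 * (n : ℝ) + 2) * (3 * C * (2 * r) ^ n) ≤ (4 * n) * (3 * C * (2 * r) ^ n) :=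
        mul_le_mul_of_nonneg_right (by linarith) (by positivity)
      have h3 : ((n : ℝ) + 1) * (2 * r) ^ n ≤ (2 * n) * (2 * r) ^ n :=
        mul_le_mul_of_nonneg_right (by linarith) (by positivity)
      nlinarith

/-- Every finite family of invertible rational matrices comes from integer data. -/
theorem exists_intData {m r : ℕ} (f : Fin r → GL (Fin m) ℚ) :
    ∃ (d : IntData m (Fin r × Bool)) (hD : IsUnit ((d.D : ℕ) : ℚ)),
      ∀ a, d.gl ℚ hD a = bif a.2 then f a.1 else (f a.1)⁻¹ := by
  classical
  let g : Fin r × Bool → GL (Fin m) ℚ := fun a => bif a.2 then f a.1 else (f a.1)⁻¹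
  let den : (Fin r × Bool) × Fin m × Fin m → ℕ := fun t => ((g t.1 : Matrix (Fin m) (Fin m) ℚ) t.2.1 t.2.2).den
  let D : ℕ := ∏ t, den t
  have hDpos : 0 < D := Finset.prod_pos fun t _ => Rat.den_pos _
  have hdvd : ∀ t, den t ∣ D := fun t => Finset.dvd_prod_of_mem den (Finset.mem_univ t)
  let N : Fin r × Bool → Matrix (Fin m) (Fin m) ℤ := fun a => Matrix.of fun i j =>
    ((g a : Matrix (Fin m) (Fin m) ℚ) i j).num * ((D / den (a, i, j) : ℕ) : ℤ)
  have hDQ : (D : ℚ) ≠ 0 := by exact_mod_cast hDpos.ne'
  have hN : ∀ a i j, ((N a i j : ℤ) : ℚ) = D * (g a : Matrix (Fin m) (Fin m) ℚ) i j := by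
    intro a i j
    have h1 : ((D / den (a, i, j) : ℕ) : ℚ) = D / den (a, i, j) := by
      rw [Nat.cast_div (hdvd _)]
      exact_mod_cast (Rat.den_pos _).ne'
    simp only [N, Matrix.of_apply]
    rw [Int.cast_mul, Int.cast_natCast, h1]
    have h2 : ((g a : Matrix (Fin m) (Fin m) ℚ) i j).num = (g a : Matrix (Fin m) (Fin m) ℚ) i j * (den (a, i, j) : ℚ) :=
      (Rat.mul_den_eq_num _).symm
    rw [h2]
    have h3 : (den (a, i, j) : ℚ) ≠ 0 := by exact_mod_cast (Rat.den_pos _).ne'
    field_simp
  have hinvg : ∀ a : Fin r × Bool, g (a.1, !a.2) = (g a)⁻¹ := by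
    rintro ⟨i, b⟩
    cases b <;> simp [g]
  have hred : ∀ a, IntData.red ℚ (N a) = (D : ℚ) • (g a : Matrix (Fin m) (Fin m) ℚ) := by
    intro a
    ext i j
    simp only [IntData.red, RingHom.mapMatrix_apply, Matrix.map_apply, Int.coe_castRingHom,
      Matrix.smul_apply, smul_eq_mul]
    exact hN a i j
  let d : IntData m (Fin r × Bool) :=
    { D := D
      D_pos := hDpos
      N := N
      inv := fun a => (a.1, !a.2)
      inv_inv := fun a => by simp
      mul_inv := fun a => by
        have h1 : IntData.red ℚ (N a * N (a.1, !a.2)) =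
            IntData.red ℚ (((D : ℤ) ^ 2) • (1 : Matrix (Fin m) (Fin m) ℤ)) := by
          rw [IntData.red_mul, hred, hred, hinvg, IntData.red_smul, IntData.red_one, smul_mul_smul_comm,
            ← Units.val_mul, mul_inv_cancel, Units.val_one]
          push_cast
          rw [sq]
        ext i j
        have h2 := congrFun (congrFun h1 i) j
        simp only [IntData.red, RingHom.mapMatrix_apply, Matrix.map_apply, Int.coe_castRingHom,
          Int.cast_inj] at h2
        exact h2 }
  have hDu : IsUnit ((d.D : ℕ) : ℚ) := isUnit_iff_ne_zero.2 hDQ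
  refine ⟨d, hDu, fun a => ?_⟩
  change _ = g a
  apply Units.ext
  change (↑(hDu.unit⁻¹) : ℚ) • IntData.red ℚ (N a) = _
  rw [hred, smul_smul]
  have : (↑(hDu.unit⁻¹) : ℚ) * (D : ℚ) = 1 := hDu.val_inv_mul
  rw [this, one_smul]

/-- The trivial machine. -/
def trivialMachine : MTM 1 where
  Γ := Option (Fin 0)
  Q := Bool
  start := true
  accept := true
  reject := false
  accept_ne_reject := by simp
  δ := fun q a => (q, fun _ => (a 0, none))

/-- The trivial machine for the empty generating family. -/
theorem linear_zero {G : Type*} [Group G] (f : Fin 0 → G) : LinearAverageWP f := by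
  refine ⟨1, trivialMachine, fun a => a.1.elim0, fun _ => 0, 0, ?_, ?_, ?_, ?_⟩
  · intro a; exact a.1.elim0
  · intro a; exact a.1.elim0
  · intro w
    refine ⟨true, ⟨rfl, fun j hj => absurd hj (Nat.not_lt_zero j)⟩, ?_⟩
    have : w = [] := by
      cases w with
      | nil => rfl
      | cons a w => exact a.1.elim0
    subst this
    simp [wordVal]
  · intro n hn
    simp

theorem main {m r : ℕ} (f : Fin r → GL (Fin m) ℚ) : LinearAverageWP f := by
  rcases Nat.eq_zero_or_pos r with h | h
  · subst h
    exact linear_zero f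
  · obtain ⟨d, hD, hf⟩ := exists_intData f
    exact core h f d hD hf

/-- The subgroup form. -/
theorem main_subgroup {m : ℕ} (G : Subgroup (GL (Fin m) ℚ)) {r : ℕ} (f : Fin r → G) :
    LinearAverageWP f := by
  obtain ⟨k, M, enc, T, C, h1, h2, h3, h4⟩ := main (fun i => (f i : GL (Fin m) ℚ))
  refine ⟨k, M, enc, T, C, h1, h2, fun w => ?_, h4⟩
  obtain ⟨b, hb, hb'⟩ := h3 w
  refine ⟨b, hb, hb'.trans ?_⟩
  have h5 : wordVal (fun i => (f i : GL (Fin m) ℚ)) w = ((wordVal f w : G) : GL (Fin m) ℚ) := by
    unfold wordVal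
    have := map_list_prod G.subtype (w.map fun a => bif a.2 then f a.1 else (f a.1)⁻¹)
    rw [List.map_map] at this
    refine Eq.trans ?_ this.symm
    congr 2
    funext a
    cases h : a.2 <;> simp [h]
  rw [h5]
  exact OneMemClass.coe_eq_one

end

end Pool.Agent.H45R3.AC
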