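import Pool.Agent.H45R3.AC.Padic
import Pool.Agent.H45R3.AC.Decay

/-!
# Elements of infinite order, the trichotomy and the probability bound
-/

namespace Pool.Agent.H45R3.AC

open Finset

section generic

variable {G : Type*} [Group G] {I : Type*}

theorem ev_inv_word (γ : I → G) (inv : I → I) (hinv : ∀ i, γ (inv i) = (γ i)⁻¹) (a : List I) :
    ev γ (a.map inv).reverse = (ev γ a)⁻¹ := by
  unfold ev
  rw [List.map_reverse, List.map_map, List.prod_inv_reverse, List.map_map]
  have : (γ ∘ inv) = ((fun x => x⁻¹) ∘ γ) := by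
    funext i
    exact hinv i
  rw [this]

theorem ev_flatten_replicate (γ : I → G) (v : List I) (k : ℕ) :
    ev γ (List.replicate k v).flatten = ev γ v ^ k := by
  induction k with
  | zero => simp [ev]
  | succ k ih => rw [List.replicate_succ, List.flatten_cons, ev_append, ih, pow_succ']

/-- A word of pairs as a word of letters. -/
def unpair (inv : I → I) (w : List (I × I)) : List I := w.flatMap fun p => [p.1, inv p.2]

theorem unpair_length (inv : I → I) (w : List (I × I)) : (unpair inv w).length = 2 * w.length := by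
  induction w with
  | nil => rfl
  | cons a w ih =>
    have : unpair inv (a :: w) = [a.1, inv a.2] ++ unpair inv w := rfl
    rw [this, List.length_append, ih]
    simp
    omega

theorem ev_unpair (γ : I → G) (inv : I → I) (hinv : ∀ i, γ (inv i) = (γ i)⁻¹)
    (w : List (I × I)) : ev γ (unpair inv w) = pev γ w := by
  induction w with
  | nil => rfl
  | cons a w ih =>
    have : unpair inv (a :: w) = [a.1, inv a.2] ++ unpair inv w := rfl
    rw [this, ev_append, ih, pev_cons]
    simp [ev, hinv]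

end generic

namespace IntData

variable {m : ℕ} {I : Type*} (d : IntData m I)

theorem exists_infinite_order [Fintype I] (hD : IsUnit ((d.D : ℕ) : ℚ))
    (hinf : Infinite (Subgroup.closure (Set.range (d.gl ℚ hD)))) :
    ∃ w : List I, ∀ n : ℕ, 0 < n → (ev (d.gl ℚ hD) w) ^ n ≠ 1 := by
  classical
  obtain ⟨p, hpge, hp⟩ := Nat.exists_infinite_primes (d.D + 1)
  obtain ⟨p', hpge', hp'⟩ := Nat.exists_infinite_primes (p + 1)
  have hcop : ∀ q : ℕ, q.Prime → d.D + 1 ≤ q → Nat.Coprime d.D q := fun q hq hge => by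
    rw [Nat.coprime_comm]
    exact (Nat.Prime.coprime_iff_not_dvd hq).2 fun h => by
      have := Nat.le_of_dvd d.D_pos h
      omega
  have hc : Nat.Coprime d.D p := hcop p hp hpge
  have hc' : Nat.Coprime d.D p' := hcop p' hp' (by omega)
  have := Fact.mk hp
  have := Fact.mk hp'
  set γ := d.gl ℚ hD with hγ
  have hinv : ∀ i, γ (d.inv i) = (γ i)⁻¹ := d.gl_inv ℚ hD
  have hw : ∀ g : Subgroup.closure (Set.range γ), ∃ w : List I, ev γ w = g := fun g =>
    exists_list_ev γ d.inv hinv g g.2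
  choose wd hwd using hw
  have : NeZero (p ^ 1) := ⟨by simpa using hp.ne_zero⟩
  have : NeZero (p' ^ 1) := ⟨by simpa using hp'.ne_zero⟩
  obtain ⟨g, g', hne, heq⟩ := Finite.exists_ne_map_eq_of_infinite
    (fun g : Subgroup.closure (Set.range γ) =>
      (ev (d.gl (ZMod (p ^ 1)) (d.isUnit_zmod hc 1)) (wd g),
        ev (d.gl (ZMod (p' ^ 1)) (d.isUnit_zmod hc' 1)) (wd g)))
  simp only [Prod.mk.injEq] at heq
  set w := ((wd g).map d.inv).reverse ++ wd g' with hwdef
  have h1 : ev γ w ≠ 1 := by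
    rw [hwdef, ev_append, ev_inv_word γ d.inv hinv, hwd, hwd]
    intro h
    rw [inv_mul_eq_one] at h
    exact hne (Subtype.ext h)
  have h2 : ev (d.gl (ZMod (p ^ 1)) (d.isUnit_zmod hc 1)) w = 1 := by
    rw [hwdef, ev_append, ev_inv_word _ d.inv (d.gl_inv _ _), heq.1, inv_mul_cancel]
  have h3 : ev (d.gl (ZMod (p' ^ 1)) (d.isUnit_zmod hc' 1)) w = 1 := by
    rw [hwdef, ev_append, ev_inv_word _ d.inv (d.gl_inv _ _), heq.2, inv_mul_cancel]
  refine ⟨w, ?_⟩
  by_contra hcon
  push Not at hcon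
  obtain ⟨n, hn, hzn⟩ := hcon
  set z := ev γ w with hz
  have ho : orderOf z ≠ 0 := by
    rw [Ne, orderOf_eq_zero_iff, isOfFinOrder_iff_pow_eq_one]
    push Not
    exact ⟨n, hn, hzn⟩
  have ho1 : orderOf z ≠ 1 := by
    rw [Ne, orderOf_eq_one_iff]
    exact h1
  obtain ⟨q, hq, hqo⟩ := Nat.exists_prime_and_dvd ho1
  obtain ⟨k, hk⟩ := hqo
  have hk0 : 0 < k := by
    rcases Nat.eq_zero_or_pos k with h | h
    · subst h; simp at hk; exact absurd (orderOf_eq_zero_iff.1 (orderOf_eq_zero_iff.2 hk)) (by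
        simpa [orderOf_eq_zero_iff] using ho)
    · exact h
  have hzk : z ^ k ≠ 1 := by
    intro h
    have h5 := orderOf_dvd_of_pow_eq_one h
    have h6 := Nat.le_of_dvd hk0 h5
    rw [hk] at h6
    have := hq.two_le
    nlinarith
  have hzkq : (z ^ k) ^ q = 1 := by
    rw [← pow_mul, mul_comm, ← hk, pow_orderOf_eq_one]
  set w' := (List.replicate k w).flatten with hw'
  have hevw' : ev γ w' = z ^ k := ev_flatten_replicate γ w k
  -- the key claim for each of the two primes
  have key : ∀ (r : ℕ) (hr : r.Prime) (hcr : Nat.Coprime d.D r), q ≠ r →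
      ev (d.gl (ZMod (r ^ 1)) (d.isUnit_zmod hcr 1)) w = 1 → False := by
    intro r hr hcr hqr hone
    have := Fact.mk hr
    obtain ⟨κ, hκ, hinj⟩ := d.inj_radius hD r hr.two_le hcr
    set s := κ * w'.length with hs
    have h4 : ev (d.gl (ZMod (r ^ 1)) (d.isUnit_zmod hcr 1)) w' = 1 := by
      rw [hw', ev_flatten_replicate, hone, one_pow]
    have h5 := d.ppow r hcr s w' h4
    have h6 : (ev (d.gl (ZMod (r ^ s)) (d.isUnit_zmod hcr s)) w') ^ q = 1 := by
      rw [← ev_flatten_replicate]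
      apply d.ev_eq_one_of_rat hD
      rw [ev_flatten_replicate]
      change (ev γ w') ^ q = 1
      rw [hevw', hzkq]
    have h7 : (ev (d.gl (ZMod (r ^ s)) (d.isUnit_zmod hcr s)) w') = 1 := by
      have h8 : Nat.gcd (r ^ s) q = 1 := by
        apply Nat.Coprime.pow_left
        exact (Nat.coprime_primes hr hq).2 (Ne.symm hqr)
      have h9 := pow_gcd_eq_one.2 ⟨h5, h6⟩
      rwa [h8, pow_one] at h9
    have h10 := hinj s w' le_rfl h7
    exact hzk (by rw [← hevw']; exact h10)
  by_cases hqp : q = p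
  · exact key p' hp' hc' (by omega) h3
  · exact key p hp hc hqp h2

end IntData

/-- The data of a counter automaton deciding the word problem of a virtually cyclic group. -/
theorem virtually_cyclic_counter {G : Type*} [Group G] {I : Type*} (γ : I → G) (inv : I → I)
    (hinv : ∀ i, γ (inv i) = (γ i)⁻¹) (z : G) (hfin : Finite (G ⧸ Subgroup.zpowers z))
    (hz : (∀ n : ℕ, 0 < n → z ^ n ≠ 1) ∨ z = 1) :
    ∃ (Q : Type) (_ : Fintype Q) (_ : DecidableEq Q) (q0 : Q) (next : I → Q → Q) (e : I → Q → ℤ),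
      ∀ w : List I, ev γ w = 1 ↔
        w.foldl (fun (s : Q × ℤ) i => (next i s.1, s.2 + e i s.1)) (q0, 0) = (q0, 0) := by
  classical
  obtain ⟨n, ⟨φ⟩⟩ := Finite.exists_equiv_fin (G ⧸ Subgroup.zpowers z)
  -- a section with τ (mk 1) = 1
  let τ : (G ⧸ Subgroup.zpowers z) → G := fun c =>
    if c = QuotientGroup.mk 1 then 1 else Quotient.out c
  have hτ : ∀ c, (QuotientGroup.mk (τ c) : G ⧸ Subgroup.zpowers z) = c := by
    intro c
    simp only [τ]
    split_ifs with h
    · exact h.symm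
    · exact QuotientGroup.out_eq' c
  have hτ1 : τ (QuotientGroup.mk 1) = 1 := by simp [τ]
  -- exponents
  have hex : ∀ (i : I) (c : G ⧸ Subgroup.zpowers z), ∃ k : ℤ, z ^ k =
      (τ ((γ (inv i)) • c))⁻¹ * (γ (inv i) * τ c) ∧ (z = 1 → k = 0) := by
    intro i c
    have h1 : (τ ((γ (inv i)) • c))⁻¹ * (γ (inv i) * τ c) ∈ Subgroup.zpowers z := by
      rw [← QuotientGroup.eq, hτ, ← smul_eq_mul (γ (inv i)) (τ c),
        ← MulAction.Quotient.smul_mk, hτ]
    obtain ⟨k, hk⟩ := Subgroup.mem_zpowers_iff.1 h1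
    by_cases h : z = 1
    · refine ⟨0, ?_, fun _ => rfl⟩
      rw [← hk, h]
      simp
    · exact ⟨k, hk, fun h' => absurd h' h⟩
  choose ex hex1 hex2 using hex
  refine ⟨Fin n, inferInstance, inferInstance, φ (QuotientGroup.mk 1),
    fun i q => φ (γ (inv i) • φ.symm q), fun i q => ex i (φ.symm q), ?_⟩
  have key : ∀ w : List I, ∃ (c : G ⧸ Subgroup.zpowers z) (k : ℤ),
      w.foldl (fun (s : Fin n × ℤ) i =>
        (φ (γ (inv i) • φ.symm s.1), s.2 + ex i (φ.symm s.1))) (φ (QuotientGroup.mk 1), 0) =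
          (φ c, k) ∧ (ev γ w)⁻¹ = τ c * z ^ k ∧ (z = 1 → k = 0) := by
    intro w
    induction w using List.reverseRecOn with
    | nil => exact ⟨QuotientGroup.mk 1, 0, rfl, by simp [ev, hτ1], fun _ => rfl⟩
    | append_singleton w i ih =>
      obtain ⟨c, k, h1, h2, h3⟩ := ih
      refine ⟨γ (inv i) • c, k + ex i c, ?_, ?_, ?_⟩
      · rw [List.foldl_append, h1]
        simp
      · rw [ev_append, mul_inv_rev, h2, add_comm, zpow_add, hex1]
        simp [ev, hinv, mul_assoc]
      · intro h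
        rw [h3 h, hex2 i c h, add_zero]
  intro w
  obtain ⟨c, k, h1, h2, h3⟩ := key w
  rw [h1]
  constructor
  · intro h
    rw [h, inv_one] at h2
    have h4 : c = QuotientGroup.mk 1 := by
      rw [← hτ c]
      rw [QuotientGroup.eq]
      have : τ c = z ^ (-k) := by
        rw [zpow_neg]
        exact eq_inv_of_mul_eq_one_left h2.symm
      rw [this, mul_one]
      exact Subgroup.inv_mem _ (Subgroup.zpow_mem _ (Subgroup.mem_zpowers z) _)
    subst h4
    rw [hτ1, one_mul] at h2
    rcases hz with hz | hz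
    · have h5 : k = 0 := by
        by_contra hk
        rcases lt_or_gt_of_ne hk with h6 | h6
        · refine hz k.natAbs (Int.natAbs_pos.2 hk) ?_
          have : z ^ (-k) = 1 := by rw [zpow_neg, ← h2, inv_one]
          rw [← zpow_natCast, Int.natCast_natAbs, abs_of_neg h6, this]
        · refine hz k.natAbs (Int.natAbs_pos.2 hk) ?_
          rw [← zpow_natCast, Int.natCast_natAbs, abs_of_pos h6, ← h2]
      rw [h5]
    · rw [h3 hz]
  · intro h
    simp only [Prod.mk.injEq, EmbeddingLike.apply_eq_iff_eq] at h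
    rw [h.1, h.2, hτ1] at h2
    simpa using h2

namespace IntData

variable {m : ℕ} {I : Type} (d : IntData m I)

/-- Either the word problem is decided by a finite automaton with a counter, or the
probabilities of the congruences are small. -/
theorem dichotomy [Fintype I] [DecidableEq I] [Nonempty I] (hD : IsUnit ((d.D : ℕ) : ℚ))
    (p : ℕ) [Fact p.Prime] (hp : Nat.Coprime d.D p) :
    (∃ (Q : Type) (_ : Fintype Q) (_ : DecidableEq Q) (q0 : Q) (next : I → Q → Q)
      (e : I → Q → ℤ), ∀ w : List I, ev (d.gl ℚ hD) w = 1 ↔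
        w.foldl (fun (s : Q × ℤ) i => (next i s.1, s.2 + e i s.1)) (q0, 0) = (q0, 0)) ∨
    (∃ C : ℝ, 0 ≤ C ∧ ∀ s n : ℕ, 0 < s → 0 < n →
      ((Finset.univ.filter fun w : Fin n → I =>
        ev (d.gl (ZMod (p ^ s)) (d.isUnit_zmod hp s)) (List.ofFn w) = 1).card : ℝ) ≤
          C * (1 / (s : ℝ) ^ 2 + 1 / n) * (Fintype.card I : ℝ) ^ n) := by
  classical
  set γ := d.gl ℚ hD with hγ
  have hinv : ∀ i, γ (d.inv i) = (γ i)⁻¹ := d.gl_inv ℚ hD
  let G := Subgroup.closure (Set.range γ)
  let γ' : I → G := fun i => ⟨γ i, Subgroup.subset_closure ⟨i, rfl⟩⟩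
  have hinv' : ∀ i, γ' (d.inv i) = (γ' i)⁻¹ := fun i => Subtype.ext (hinv i)
  have hev : ∀ w : List I, ((ev γ' w : G) : GL (Fin m) ℚ) = ev γ w := by
    intro w
    have := map_list_prod G.subtype (w.map γ')
    rw [List.map_map] at this
    exact this
  have hpev : ∀ w : List (I × I), ((pev γ' w : G) : GL (Fin m) ℚ) = pev γ w := by
    intro w
    rw [← ev_unpair γ d.inv hinv, ← ev_unpair γ' d.inv hinv', hev]
  have hev1 : ∀ w : List I, ev γ w = 1 ↔ ev γ' w = 1 := fun w => by
    rw [← hev]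
    exact OneMemClass.coe_eq_one
  have hgen : Subgroup.closure (Set.range γ') = ⊤ := by
    have h0 : Set.range γ' = (Subtype.val : G → GL (Fin m) ℚ) ⁻¹' (Set.range γ) := by
      ext x
      simp only [Set.mem_range, Set.mem_preimage]
      constructor
      · rintro ⟨i, rfl⟩; exact ⟨i, rfl⟩
      · rintro ⟨i, hi⟩; exact ⟨i, Subtype.ext hi⟩
    rw [h0]
    exact Subgroup.closure_closure_coe_preimage
  by_cases hfinG : Finite G
  · left
    obtain ⟨Q, i1, i2, q0, next, e, h⟩ := virtually_cyclic_counter γ' d.inv hinv' 1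
      (by infer_instance) (Or.inr rfl)
    exact ⟨Q, i1, i2, q0, next, e, fun w => by rw [hev1, h]⟩
  have hinfG : Infinite G := not_finite_iff_infinite.1 hfinG
  obtain ⟨w0, hw0⟩ := d.exists_infinite_order hD hinfG
  set z : G := ev γ' w0 with hz
  have hz' : ∀ n : ℕ, 0 < n → z ^ n ≠ 1 := by
    intro n hn h
    apply hw0 n hn
    change (ev γ w0) ^ n = 1
    rw [← hev, ← Subgroup.coe_pow, ← hz, h]
    rfl
  by_cases hq : Finite (G ⧸ Subgroup.zpowers z)
  · left
    obtain ⟨Q, i1, i2, q0, next, e, h⟩ := virtually_cyclic_counter γ' d.inv hinv' z hq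
      (Or.inl hz')
    exact ⟨Q, i1, i2, q0, next, e, fun w => by rw [hev1, h]⟩
  have hq' : Infinite (G ⧸ Subgroup.zpowers z) := not_finite_iff_infinite.1 hq
  right
  obtain ⟨q, hq0, hq1, hgr⟩ := growth γ' d.inv hinv' hgen z hz' hq'
  have hpr : p.Prime := Fact.out
  obtain ⟨κ, hκ, hinj⟩ := d.inj_radius hD p hpr.two_le hp
  refine ⟨(8 * (4 * κ : ℝ) ^ 2 + 48 * (Fintype.card I : ℝ) ^ 2) / q, by positivity, ?_⟩
  intro s n hs hn
  have : NeZero (p ^ s) := ⟨pow_ne_zero _ hpr.ne_zero⟩
  set γs := d.gl (ZMod (p ^ s)) (d.isUnit_zmod hp s) with hγs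
  have hinvs : ∀ i, γs (d.inv i) = (γs i)⁻¹ := d.gl_inv _ _
  have hW : ∀ r : ℕ, (4 * κ : ℝ) * r ≤ s → ∃ S : Finset (GL (Fin m) (ZMod (p ^ s))), S.Nonempty ∧
      (∀ h ∈ S, ∃ w : List (I × I), w.length = r ∧ pev γs w = h) ∧
      q * (r : ℝ) ^ 2 ≤ S.card := by
    intro r hr
    have hr' : 4 * κ * r ≤ s := by exact_mod_cast hr
    obtain ⟨W, hW1, hW2, hW3, hW4⟩ := hgr r
    refine ⟨W.image (pev γs), hW4.image _, ?_, ?_⟩
    · intro h hh
      obtain ⟨w, hw, rfl⟩ := Finset.mem_image.1 hh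
      exact ⟨w, hW1 w hw, rfl⟩
    · rw [Finset.card_image_of_injOn]
      · exact hW3
      · intro v hv w hw hvw
        apply hW2 hv hw
        have hvw' : pev γs v = pev γs w := hvw
        rw [← ev_unpair γs d.inv hinvs, ← ev_unpair γs d.inv hinvs] at hvw'
        have h1 : ev γs (((unpair d.inv v).map d.inv).reverse ++ unpair d.inv w) = 1 := by
          rw [ev_append, ev_inv_word γs d.inv hinvs, hvw', inv_mul_cancel]
        have h2 := hinj s _ (by
          simp only [List.length_append, List.length_reverse, List.length_map, unpair_length]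
          rw [hW1 v hv, hW1 w hw]
          calc κ * (2 * r + 2 * r) = 4 * κ * r := by ring
            _ ≤ s := hr') h1
        rw [ev_append, ev_inv_word _ d.inv (d.gl_inv _ _), inv_mul_eq_one] at h2
        apply Subtype.ext
        rw [hpev, hpev, ← ev_unpair γ d.inv hinv, ← ev_unpair γ d.inv hinv]
        exact h2
  have h1 := quad_decay γs q (4 * κ) s hq0 hq1 (by positivity) (by exact_mod_cast hs) hW n hn 1
  have h2 : ((Finset.univ.filter fun w : Fin n → I => ev γs (List.ofFn w) = 1).card : ℝ) =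
      (Fintype.card I : ℝ) ^ n * dist γs n 1 := by
    rw [← card_words]
    congr 2
    ext w
    simp only [Finset.mem_filter, Finset.mem_univ, true_and, ev, List.map_ofFn]
    rfl
  rw [h2, mul_comm]
  exact mul_le_mul_of_nonneg_right h1 (by positivity)

end IntData

end Pool.Agent.H45R3.AC
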