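import Pool.Agent.H45R3.AC.Growth

/-!
# Rational matrices through integer matrices, and their congruence quotients
-/

namespace Pool.Agent.H45R3.AC

open Finset Matrix

/-- Integer matrices `N i` standing for the rational matrices `D⁻¹ • N i`, closed under inverses. -/
structure IntData (m : ℕ) (I : Type*) where
  D : ℕ
  D_pos : 0 < D
  N : I → Matrix (Fin m) (Fin m) ℤ
  inv : I → I
  inv_inv : ∀ i, inv (inv i) = i
  mul_inv : ∀ i, N i * N (inv i) = ((D : ℤ) ^ 2) • (1 : Matrix (Fin m) (Fin m) ℤ)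

namespace IntData

variable {m : ℕ} {I : Type*} (d : IntData m I)

theorem inv_mul (i : I) :
    d.N (d.inv i) * d.N i = ((d.D : ℤ) ^ 2) • (1 : Matrix (Fin m) (Fin m) ℤ) := by
  have := d.mul_inv (d.inv i)
  rwa [d.inv_inv] at this

section ring

variable (R : Type*) [CommRing R]

/-- Reduction of integer matrices. -/
def red (M : Matrix (Fin m) (Fin m) ℤ) : Matrix (Fin m) (Fin m) R :=
  (Int.castRingHom R).mapMatrix M

theorem red_mul (M M' : Matrix (Fin m) (Fin m) ℤ) : red R (M * M') = red R M * red R M' :=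
  map_mul _ _ _

theorem red_one : red R (1 : Matrix (Fin m) (Fin m) ℤ) = 1 := map_one _

theorem red_smul (c : ℤ) (M : Matrix (Fin m) (Fin m) ℤ) : red R (c • M) = (c : R) • red R M := by
  ext i j
  simp only [red, RingHom.mapMatrix_apply, Matrix.map_apply, Matrix.smul_apply, smul_eq_mul,
    Int.coe_castRingHom, Int.cast_mul]

variable (hD : IsUnit ((d.D : ℕ) : R))

/-- The group elements over a ring in which `D` is invertible. -/
noncomputable def gl (i : I) : GL (Fin m) R where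
  val := (↑(hD.unit⁻¹) : R) • red R (d.N i)
  inv := (↑(hD.unit⁻¹) : R) • red R (d.N (d.inv i))
  val_inv := by
    rw [smul_mul_smul_comm, ← red_mul, d.mul_inv, red_smul, red_one, smul_smul]
    have : (↑(hD.unit⁻¹) : R) * ↑(hD.unit⁻¹) * (((d.D : ℤ) ^ 2 : ℤ) : R) = 1 := by
      push_cast
      have h := hD.val_inv_mul
      calc (↑(hD.unit⁻¹) : R) * ↑(hD.unit⁻¹) * (d.D : R) ^ 2
          = (↑(hD.unit⁻¹) * (d.D : R)) ^ 2 := by ring
        _ = 1 := by rw [h, one_pow]
    rw [this, one_smul]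
  inv_val := by
    rw [smul_mul_smul_comm, ← red_mul, d.inv_mul, red_smul, red_one, smul_smul]
    have : (↑(hD.unit⁻¹) : R) * ↑(hD.unit⁻¹) * (((d.D : ℤ) ^ 2 : ℤ) : R) = 1 := by
      push_cast
      have h := hD.val_inv_mul
      calc (↑(hD.unit⁻¹) : R) * ↑(hD.unit⁻¹) * (d.D : R) ^ 2
          = (↑(hD.unit⁻¹) * (d.D : R)) ^ 2 := by ring
        _ = 1 := by rw [h, one_pow]
    rw [this, one_smul]

theorem gl_inv (i : I) : d.gl R hD (d.inv i) = (d.gl R hD i)⁻¹ := by
  ext1
  rfl

/-- The integer product of a word. -/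
def prodN (w : List I) : Matrix (Fin m) (Fin m) ℤ := (w.map d.N).prod

theorem prodN_append (v w : List I) : d.prodN (v ++ w) = d.prodN v * d.prodN w := by
  simp [prodN]

theorem ev_gl (w : List I) : ((ev (d.gl R hD) w : GL (Fin m) R) : Matrix (Fin m) (Fin m) R) =
    (↑(hD.unit⁻¹) : R) ^ w.length • red R (d.prodN w) := by
  induction w with
  | nil => simp [ev, prodN, red_one]
  | cons i w ih =>
    have h1 : ev (d.gl R hD) (i :: w) = d.gl R hD i * ev (d.gl R hD) w := by simp [ev]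
    have h2 : d.prodN (i :: w) = d.N i * d.prodN w := by simp [prodN]
    rw [h1, h2, Units.val_mul, ih, red_mul]
    change (↑(hD.unit⁻¹) : R) • red R (d.N i) * _ = _
    rw [smul_mul_smul_comm, List.length_cons, pow_succ']

theorem ev_gl_eq_one_iff (w : List I) : ev (d.gl R hD) w = 1 ↔
    red R (d.prodN w) = ((d.D : R) ^ w.length) • (1 : Matrix (Fin m) (Fin m) R) := by
  have hu : (d.D : R) ^ w.length * (↑(hD.unit⁻¹) : R) ^ w.length = 1 := by
    rw [← mul_pow, hD.mul_val_inv, one_pow]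
  have hu' : (↑(hD.unit⁻¹) : R) ^ w.length * (d.D : R) ^ w.length = 1 := by rw [mul_comm, hu]
  rw [Units.ext_iff, ev_gl, Units.val_one]
  constructor
  · intro h
    rw [← h, smul_smul, hu, one_smul]
  · intro h
    rw [h, smul_smul, hu', one_smul]

end ring

theorem ev_rat_eq_one_iff (hD : IsUnit ((d.D : ℕ) : ℚ)) (w : List I) : ev (d.gl ℚ hD) w = 1 ↔
    d.prodN w = ((d.D : ℤ) ^ w.length) • (1 : Matrix (Fin m) (Fin m) ℤ) := by
  rw [ev_gl_eq_one_iff]
  constructor
  · intro h
    have h2 : red ℚ (d.prodN w) =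
        red ℚ (((d.D : ℤ) ^ w.length) • (1 : Matrix (Fin m) (Fin m) ℤ)) := by
      rw [h, red_smul, red_one]
      push_cast
      rfl
    ext i j
    have h3 := congrFun (congrFun h2 i) j
    simp only [red, RingHom.mapMatrix_apply, Matrix.map_apply, Int.coe_castRingHom,
      Int.cast_inj] at h3
    exact h3
  · intro h
    rw [h, red_smul, red_one]
    push_cast
    rfl

theorem ev_eq_one_of_rat (hD : IsUnit ((d.D : ℕ) : ℚ)) (R : Type*) [CommRing R]
    (hR : IsUnit ((d.D : ℕ) : R)) (w : List I) (h : ev (d.gl ℚ hD) w = 1) :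
    ev (d.gl R hR) w = 1 := by
  rw [ev_rat_eq_one_iff] at h
  rw [ev_gl_eq_one_iff, h, red_smul, red_one]
  push_cast
  rfl

theorem ev_zmod_eq_one_iff (n : ℕ) (hR : IsUnit ((d.D : ℕ) : ZMod n)) (w : List I) :
    ev (d.gl (ZMod n) hR) w = 1 ↔
      ∀ i j, (n : ℤ) ∣ (d.prodN w - ((d.D : ℤ) ^ w.length) • (1 : Matrix (Fin m) (Fin m) ℤ)) i j := by
  rw [ev_gl_eq_one_iff]
  have e : ((d.D : ZMod n) ^ w.length) • (1 : Matrix (Fin m) (Fin m) (ZMod n)) =
      red (ZMod n) (((d.D : ℤ) ^ w.length) • (1 : Matrix (Fin m) (Fin m) ℤ)) := by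
    rw [red_smul, red_one]
    push_cast
    rfl
  rw [e]
  constructor
  · intro h i j
    have h3 := congrFun (congrFun h i) j
    simp only [red, RingHom.mapMatrix_apply, Matrix.map_apply, Int.coe_castRingHom] at h3
    rw [Matrix.sub_apply]
    exact (ZMod.intCast_eq_intCast_iff_dvd_sub _ _ _).1 h3.symm
  · intro h
    ext i j
    have h3 := h i j
    rw [Matrix.sub_apply] at h3
    simp only [red, RingHom.mapMatrix_apply, Matrix.map_apply, Int.coe_castRingHom]
    exact ((ZMod.intCast_eq_intCast_iff_dvd_sub _ _ _).2 h3).symm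

theorem isUnit_zmod {p : ℕ} (hp : Nat.Coprime d.D p) (s : ℕ) :
    IsUnit ((d.D : ℕ) : ZMod (p ^ s)) :=
  (ZMod.isUnit_iff_coprime d.D (p ^ s)).2 (Nat.Coprime.pow_right s hp)

section bound

variable [Fintype I]

theorem exists_bound : ∃ B : ℕ, 1 ≤ B ∧ d.D ≤ B ∧
    ∀ (w : List I) (i j : Fin m), |d.prodN w i j| ≤ (B : ℤ) ^ w.length := by
  classical
  let b : ℕ := ∑ i : I, ∑ a : Fin m, ∑ c : Fin m, (d.N i a c).natAbs
  have hb : ∀ i a c, |d.N i a c| ≤ (b : ℤ) := by
    intro i a c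
    rw [Int.abs_eq_natAbs]
    have h1 : (d.N i a c).natAbs ≤ ∑ c : Fin m, (d.N i a c).natAbs :=
      Finset.single_le_sum (f := fun c => (d.N i a c).natAbs) (fun _ _ => Nat.zero_le _)
        (Finset.mem_univ c)
    have h2 : ∑ c : Fin m, (d.N i a c).natAbs ≤ ∑ a : Fin m, ∑ c : Fin m, (d.N i a c).natAbs :=
      Finset.single_le_sum (f := fun a => ∑ c : Fin m, (d.N i a c).natAbs)
        (fun _ _ => Nat.zero_le _) (Finset.mem_univ a)
    have h3 : ∑ a : Fin m, ∑ c : Fin m, (d.N i a c).natAbs ≤ b :=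
      Finset.single_le_sum (f := fun i => ∑ a : Fin m, ∑ c : Fin m, (d.N i a c).natAbs)
        (fun _ _ => Nat.zero_le _) (Finset.mem_univ i)
    exact_mod_cast h1.trans (h2.trans h3)
  refine ⟨m * b + d.D + 1, by omega, by omega, ?_⟩
  intro w
  induction w with
  | nil =>
    intro i j
    simp only [prodN, List.map_nil, List.prod_nil, List.length_nil, pow_zero]
    by_cases h : i = j
    · subst h; simp
    · rw [Matrix.one_apply_ne h]; simp
  | cons k w ih =>
    intro i j
    have h2 : d.prodN (k :: w) = d.N k * d.prodN w := by simp [prodN]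
    rw [h2, Matrix.mul_apply, List.length_cons]
    refine (Finset.abs_sum_le_sum_abs _ _).trans ?_
    have h3 : ∀ c : Fin m, |d.N k i c * d.prodN w c j| ≤
        (b : ℤ) * ((m * b + d.D + 1 : ℕ) : ℤ) ^ w.length := fun c => by
      rw [abs_mul]
      exact mul_le_mul (hb k i c) (ih c j) (abs_nonneg _) (by positivity)
    refine (Finset.sum_le_sum fun c _ => h3 c).trans ?_
    rw [Finset.sum_const, Finset.card_univ, Fintype.card_fin, nsmul_eq_mul, pow_succ']
    rw [← mul_assoc]
    refine mul_le_mul_of_nonneg_right ?_ (by positivity)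
    push_cast
    have : (0 : ℤ) ≤ d.D := Int.natCast_nonneg _
    linarith

/-- Short words are detected by the congruence quotients. -/
theorem inj_radius (hD : IsUnit ((d.D : ℕ) : ℚ)) (p : ℕ) (hp1 : 2 ≤ p) (hp : Nat.Coprime d.D p) :
    ∃ κ : ℕ, 0 < κ ∧ ∀ (s : ℕ) (w : List I), κ * w.length ≤ s →
      ev (d.gl (ZMod (p ^ s)) (d.isUnit_zmod hp s)) w = 1 → ev (d.gl ℚ hD) w = 1 := by
  obtain ⟨B, hB1, hBD, hB⟩ := d.exists_bound
  refine ⟨2 * B, by omega, ?_⟩
  intro s w hs h
  rw [ev_zmod_eq_one_iff] at h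
  rw [ev_rat_eq_one_iff]
  rcases Nat.eq_zero_or_pos w.length with hw | hw
  · have : w = [] := List.eq_nil_of_length_eq_zero hw
    subst this
    simp [prodN]
  ext i j
  have h1 := h i j
  have hlt : |(d.prodN w - ((d.D : ℤ) ^ w.length) • (1 : Matrix (Fin m) (Fin m) ℤ)) i j| <
      ((p ^ s : ℕ) : ℤ) := by
    rw [Matrix.sub_apply]
    have h2 : |(((d.D : ℤ) ^ w.length) • (1 : Matrix (Fin m) (Fin m) ℤ)) i j| ≤
        (B : ℤ) ^ w.length := by
      rw [Matrix.smul_apply, smul_eq_mul]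
      have h4 : (d.D : ℤ) ^ w.length ≤ (B : ℤ) ^ w.length :=
        pow_le_pow_left₀ (by positivity) (by exact_mod_cast hBD) _
      by_cases hij : i = j
      · subst hij
        rw [Matrix.one_apply_eq, mul_one, abs_of_nonneg (by positivity)]
        exact h4
      · rw [Matrix.one_apply_ne hij, mul_zero, abs_zero]
        positivity
    have h5 : (2 * (B : ℤ) ^ w.length) < ((p ^ s : ℕ) : ℤ) := by
      have h6 : 2 * B ^ w.length ≤ (2 * B) ^ w.length := by
        rw [mul_pow]
        exact Nat.mul_le_mul_right _ (Nat.le_self_pow (by omega) 2)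
      have h7 : (2 * B) ^ w.length < p ^ s := by
        calc (2 * B) ^ w.length < (2 ^ (2 * B)) ^ w.length :=
              Nat.pow_lt_pow_left (Nat.lt_two_pow_self) (by omega)
          _ = 2 ^ (2 * B * w.length) := by rw [pow_mul 2 (2 * B) w.length]
          _ ≤ 2 ^ s := Nat.pow_le_pow_right (by norm_num) hs
          _ ≤ p ^ s := Nat.pow_le_pow_left hp1 s
      exact_mod_cast lt_of_le_of_lt h6 h7
    refine lt_of_le_of_lt (abs_sub _ _) ?_
    have h8 := hB w i j
    linarith
  have h9 := Int.eq_zero_of_abs_lt_dvd h1 hlt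
  rw [Matrix.sub_apply] at h9
  linarith

end bound

end IntData

/-- In a ring where `p ^ s = 0`, a matrix congruent to `1` modulo `p` has `p`-power order. -/
theorem pow_eq_one_of_one_add {m : ℕ} {R : Type*} [CommRing R] (p s : ℕ) [Fact p.Prime]
    (hp : (p : R) ^ s = 0) (Z : Matrix (Fin m) (Fin m) R) :
    (1 + (p : R) • Z) ^ p ^ s = 1 := by
  have h1 : (p : Polynomial ℤ) ∣ (1 + (p : Polynomial ℤ) * Polynomial.X) - 1 :=
    ⟨Polynomial.X, by ring⟩
  have h2 := dvd_sub_pow_of_dvd_sub h1 s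
  rw [one_pow] at h2
  obtain ⟨q, hq⟩ := h2
  have h3 := congrArg (Polynomial.aeval Z) hq
  simp only [map_sub, map_pow, map_add, map_one, map_mul, map_natCast, Polynomial.aeval_X] at h3
  have h4 : ((p : Matrix (Fin m) (Fin m) R) ^ (s + 1)) = 0 := by
    have : (p : Matrix (Fin m) (Fin m) R) = algebraMap R _ (p : R) := by simp
    rw [this, ← map_pow, pow_succ, hp, zero_mul, map_zero]
  rw [h4, zero_mul] at h3
  have h5 : (p : R) • Z = (p : Matrix (Fin m) (Fin m) R) * Z := by
    rw [Nat.cast_smul_eq_nsmul, nsmul_eq_mul]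
  rw [h5]
  exact sub_eq_zero.1 h3

namespace IntData

variable {m : ℕ} {I : Type*} (d : IntData m I)

theorem ppow (p : ℕ) [Fact p.Prime] (hp : Nat.Coprime d.D p) (s : ℕ) (w : List I)
    (h : ev (d.gl (ZMod (p ^ 1)) (d.isUnit_zmod hp 1)) w = 1) :
    (ev (d.gl (ZMod (p ^ s)) (d.isUnit_zmod hp s)) w) ^ p ^ s = 1 := by
  rw [ev_zmod_eq_one_iff] at h
  choose Z hZ using h
  have hpr : ((p : ZMod (p ^ s))) ^ s = 0 := by
    rw [← Nat.cast_pow, ZMod.natCast_self]
  have e1 : d.prodN w = ((d.D : ℤ) ^ w.length) • (1 : Matrix (Fin m) (Fin m) ℤ) +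
      (p : ℤ) • (Matrix.of Z) := by
    ext i j
    have := hZ i j
    rw [Matrix.sub_apply] at this
    rw [Matrix.add_apply, Matrix.smul_apply (p : ℤ), Matrix.of_apply, smul_eq_mul]
    push_cast at this
    rw [pow_one] at this
    linarith
  set R := ZMod (p ^ s)
  set hR := d.isUnit_zmod hp s
  have e2 : ((ev (d.gl R hR) w : GL (Fin m) R) : Matrix (Fin m) (Fin m) R) =
      1 + (p : R) • ((↑(hR.unit⁻¹) : R) ^ w.length • red R (Matrix.of Z)) := by
    rw [ev_gl, e1]
    have : red R (((d.D : ℤ) ^ w.length) • (1 : Matrix (Fin m) (Fin m) ℤ) +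
        (p : ℤ) • (Matrix.of Z)) = ((d.D : R) ^ w.length) • (1 : Matrix (Fin m) (Fin m) R) +
        (p : R) • red R (Matrix.of Z) := by
      have h0 : ∀ M M' : Matrix (Fin m) (Fin m) ℤ, red R (M + M') = red R M + red R M' :=
        fun M M' => map_add _ _ _
      rw [h0, red_smul, red_smul, red_one]
      push_cast
      rfl
    rw [this, smul_add, smul_smul, ← mul_pow, hR.val_inv_mul, one_pow, one_smul, smul_comm]
  rw [Units.ext_iff, Units.val_pow_eq_pow_val, e2, Units.val_one]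
  exact pow_eq_one_of_one_add p s hpr _

end IntData

end Pool.Agent.H45R3.AC
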