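import Mathlib

/-!
# Multitape Turing machines

Deterministic Turing machines with `k` two-way infinite tapes, built on Mathlib's `Turing.Tape`.
-/

namespace Pool.Agent.H45R3.AC

open Turing

/-- A deterministic Turing machine with `k` two-way infinite tapes over one finite alphabet `Γ`
(whose blank symbol is `default`), with a finite set `Q` of states, a start state, and two
different halting states `accept` and `reject`. -/
structure MTM (k : ℕ) where
  Γ : Type
  Q : Type
  [finΓ : Fintype Γ]
  [inhΓ : Inhabited Γ]
  [finQ : Fintype Q]
  start : Q
  accept : Q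
  reject : Q
  accept_ne_reject : accept ≠ reject
  /-- the transition function: given the state and the scanned symbols it gives the new state and,
  for each tape, the symbol to write and the move (left, right, or stay) -/
  δ : Q → (Fin k → Γ) → Q × (Fin k → Γ × Option Dir)

attribute [instance] MTM.finΓ MTM.inhΓ MTM.finQ

namespace MTM

variable {k : ℕ} (M : MTM k)

/-- Configurations: a state and the contents of the tapes (with the position of the heads). -/
structure Cfg where
  q : M.Q
  tape : Fin k → Tape M.Γ

/-- The head moves left, right, or stays. -/
def moveOpt {Γ : Type} [Inhabited Γ] : Option Dir → Tape Γ → Tape Γ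
  | none, T => T
  | some d, T => T.move d

/-- One step of the machine. -/
def next (c : M.Cfg) : M.Cfg where
  q := (M.δ c.q fun i => (c.tape i).head).1
  tape := fun i => moveOpt ((M.δ c.q fun i => (c.tape i).head).2 i).2
    ((c.tape i).write ((M.δ c.q fun i => (c.tape i).head).2 i).1)

/-- The initial configuration: the input word is written on tape `0`, with the head on its first
symbol; all other tapes are blank. -/
def init (x : List M.Γ) : M.Cfg where
  q := M.start
  tape := fun i => if (i : ℕ) = 0 then Tape.mk₁ x else Tape.mk₁ []

/-- The machine is in a halting state. -/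
def Halted (c : M.Cfg) : Prop := c.q = M.accept ∨ c.q = M.reject

/-- On input `x` the machine reaches a halting state for the first time after exactly `t` steps,
and it is `accept` if `b = true` and `reject` if `b = false`. -/
def Decides (x : List M.Γ) (t : ℕ) (b : Bool) : Prop :=
  (M.next^[t] (M.init x)).q = (bif b then M.accept else M.reject) ∧
    ∀ j < t, ¬ M.Halted (M.next^[j] (M.init x))

/-- Runs through non-halting configurations. -/
inductive Run : M.Cfg → ℕ → M.Cfg → Prop
  | refl (c : M.Cfg) : Run c 0 c
  | step {c c' : M.Cfg} {n : ℕ} : ¬ M.Halted c → Run (M.next c) n c' → Run c (n + 1) c'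

variable {M}

theorem Run.trans {a b c : M.Cfg} {m n : ℕ} (h₁ : M.Run a m b) (h₂ : M.Run b n c) :
    M.Run a (m + n) c := by
  induction h₁ with
  | refl => simpa using h₂
  | @step c c' n' h h' ih =>
    rw [show n' + 1 + n = (n' + n) + 1 by omega]
    exact Run.step h (ih h₂)

theorem Run.iterate {a b : M.Cfg} {m : ℕ} (h : M.Run a m b) :
    M.next^[m] a = b ∧ ∀ j < m, ¬ M.Halted (M.next^[j] a) := by
  induction h with
  | refl => exact ⟨rfl, fun j hj => absurd hj (Nat.not_lt_zero j)⟩
  | @step c c' n h _ ih =>
    refine ⟨by rw [Function.iterate_succ_apply]; exact ih.1, fun j hj => ?_⟩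
    cases j with
    | zero => exact h
    | succ j =>
      rw [Function.iterate_succ_apply]
      exact ih.2 j (by omega)

theorem Run.decides {x : List M.Γ} {t : ℕ} {c : M.Cfg} (h : M.Run (M.init x) t c) (b : Bool)
    (hb : c.q = (bif b then M.accept else M.reject)) : M.Decides x t b := by
  refine ⟨?_, h.iterate.2⟩
  rw [h.iterate.1, hb]

end MTM

/-- The word over the generators `f i` and their inverses coded by a list of pairs: `(i, true)`
stands for `f i` and `(i, false)` for its inverse. -/
def wordVal {G : Type*} [Group G] {r : ℕ} (f : Fin r → G) (w : List (Fin r × Bool)) : G :=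
  (w.map fun a => bif a.2 then f a.1 else (f a.1)⁻¹).prod

/-- The word problem of the group generated by `f` has linear average-case time complexity: there
is a multitape Turing machine which, on every input word `w` over the group alphabet, halts after
some number `T w` of steps and decides whether `w` represents the identity, and the average of
`T w` over all the `(2 r) ^ n` words of length `n` is at most `C n`, for all `n ≥ 1`. -/
def LinearAverageWP {G : Type*} [Group G] {r : ℕ} (f : Fin r → G) : Prop :=
  ∃ (k : ℕ) (M : MTM k) (enc : Fin r × Bool → M.Γ) (T : List (Fin r × Bool) → ℕ) (C : ℝ),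
    Function.Injective enc ∧ (∀ a, enc a ≠ default) ∧
    (∀ w : List (Fin r × Bool), ∃ b : Bool, M.Decides (w.map enc) (T w) b ∧
      (b = true ↔ wordVal f w = 1)) ∧
    ∀ n : ℕ, 1 ≤ n →
      (∑ v : Fin n → Fin r × Bool, (T (List.ofFn v) : ℝ)) / (2 * r) ^ n ≤ C * n

end Pool.Agent.H45R3.AC
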