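import Mathlib

/-!
# Return probabilities of random walks on finite groups

`dist γ n x` is the probability that a uniformly random word of length `n` in the letters `i : I`
evaluates to `x` in the finite group `H`.  The main result is a Nash-type inequality
(`nash`) and the resulting decay (`decay`).
-/

namespace Pool.Agent.H45R3.AC

open Finset

/-- The value of a word in pairs of letters: the letter `(i, j)` stands for `γ i * (γ j)⁻¹`. -/
def pev {H : Type*} [Group H] {I : Type*} (γ : I → H) (w : List (I × I)) : H :=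
  (w.map fun p => γ p.1 * (γ p.2)⁻¹).prod

theorem pev_nil {H : Type*} [Group H] {I : Type*} (γ : I → H) : pev γ [] = 1 := rfl

theorem pev_cons {H : Type*} [Group H] {I : Type*} (γ : I → H) (p : I × I) (w : List (I × I)) :
    pev γ (p :: w) = γ p.1 * (γ p.2)⁻¹ * pev γ w := by
  simp [pev]

theorem pev_append {H : Type*} [Group H] {I : Type*} (γ : I → H) (v w : List (I × I)) :
    pev γ (v ++ w) = pev γ v * pev γ w := by
  simp [pev]

variable {H : Type*} [Group H] [Fintype H] [DecidableEq H] {I : Type*} [Fintype I]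

/-- The distribution of the value of a random word of length `n`. -/
noncomputable def dist (γ : I → H) : ℕ → H → ℝ
  | 0 => fun x => if x = 1 then 1 else 0
  | n + 1 => fun x => (∑ i, dist γ n (x * (γ i)⁻¹)) / Fintype.card I

omit [Fintype H] in
theorem dist_nonneg (γ : I → H) (n : ℕ) (x : H) : 0 ≤ dist γ n x := by
  induction n generalizing x with
  | zero => simp only [dist]; split_ifs <;> norm_num
  | succ n ih => exact div_nonneg (Finset.sum_nonneg fun i _ => ih _) (Nat.cast_nonneg _)

theorem sum_dist [Nonempty I] (γ : I → H) (n : ℕ) : ∑ x, dist γ n x = 1 := by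
  induction n with
  | zero => simp [dist]
  | succ n ih =>
    have hI : (Fintype.card I : ℝ) ≠ 0 := by exact_mod_cast Fintype.card_ne_zero
    simp only [dist]
    rw [← Finset.sum_div, Finset.sum_comm]
    have : ∀ i : I, ∑ x : H, dist γ n (x * (γ i)⁻¹) = 1 := fun i => by
      rw [← ih]
      exact Fintype.sum_equiv (Equiv.mulRight (γ i)⁻¹) _ _ (fun x => rfl)
    simp only [this, Finset.sum_const, Finset.card_univ, nsmul_eq_mul, mul_one]
    exact div_self hI

theorem dist_conv (γ : I → H) (a b : ℕ) (y : H) :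
    dist γ (a + b) y = ∑ x, dist γ a x * dist γ b (x⁻¹ * y) := by
  induction b generalizing y with
  | zero =>
    simp only [dist, add_zero, mul_ite, mul_one, mul_zero]
    rw [Finset.sum_eq_single y]
    · simp
    · intro x _ hx
      rw [if_neg]
      intro h
      exact hx (by rw [inv_mul_eq_one] at h; exact h)
    · simp
  | succ b ih =>
    rw [← add_assoc]
    simp only [dist]
    simp_rw [ih]
    rw [Finset.sum_comm, Finset.sum_div]
    refine Finset.sum_congr rfl fun x _ => ?_
    rw [← Finset.mul_sum, mul_div_assoc]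
    simp only [mul_assoc]

/-- The squared `ℓ²` norm of the distribution. -/
noncomputable def nrm (γ : I → H) (n : ℕ) : ℝ := ∑ x, dist γ n x ^ 2

theorem nrm_nonneg (γ : I → H) (n : ℕ) : 0 ≤ nrm γ n :=
  Finset.sum_nonneg fun _ _ => sq_nonneg _

theorem dist_even_le (γ : I → H) (n : ℕ) (y : H) : dist γ (n + n) y ≤ nrm γ n := by
  rw [dist_conv]
  have h1 : ∀ x : H, dist γ n x * dist γ n (x⁻¹ * y) ≤
      (dist γ n x ^ 2 + dist γ n (x⁻¹ * y) ^ 2) / 2 := fun x => by
    nlinarith [sq_nonneg (dist γ n x - dist γ n (x⁻¹ * y))]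
  refine (Finset.sum_le_sum fun x _ => h1 x).trans ?_
  rw [← Finset.sum_div, Finset.sum_add_distrib]
  have h2 : ∑ x : H, dist γ n (x⁻¹ * y) ^ 2 = ∑ x : H, dist γ n x ^ 2 :=
    Fintype.sum_equiv ((Equiv.inv H).trans (Equiv.mulRight y)) _ _ (fun x => rfl)
  rw [h2]
  unfold nrm
  linarith

theorem dist_odd_le [Nonempty I] (γ : I → H) (n : ℕ) (y : H) :
    dist γ (n + n + 1) y ≤ nrm γ n := by
  have hI : (0 : ℝ) < Fintype.card I := by exact_mod_cast Fintype.card_pos
  simp only [dist]
  rw [div_le_iff₀ hI]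
  refine (Finset.sum_le_sum fun i _ => dist_even_le γ n _).trans ?_
  simp [mul_comm]

theorem dist_le_nrm [Nonempty I] (γ : I → H) (n : ℕ) (y : H) :
    dist γ n y ≤ nrm γ (n / 2) := by
  rcases Nat.even_or_odd' n with ⟨k, rfl | rfl⟩
  · have : 2 * k / 2 = k := by omega
    rw [this, two_mul]
    exact dist_even_le γ k y
  · have : (2 * k + 1) / 2 = k := by omega
    rw [this, two_mul]
    exact dist_odd_le γ k y

/-- The translation defect. -/
def defect (f : H → ℝ) (h : H) : ℝ := ∑ y, (f y - f (y * h)) ^ 2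

omit [DecidableEq H] in
theorem defect_eq (f : H → ℝ) (h : H) :
    defect f h = 2 * (∑ y, f y ^ 2) - 2 * ∑ y, f y * f (y * h) := by
  have h2 : ∑ y : H, f (y * h) ^ 2 = ∑ y : H, f y ^ 2 :=
    Fintype.sum_equiv (Equiv.mulRight h) _ _ (fun x => rfl)
  unfold defect
  calc ∑ y, (f y - f (y * h)) ^ 2
      = ∑ y, (f y ^ 2 + f (y * h) ^ 2 - 2 * (f y * f (y * h))) :=
        Finset.sum_congr rfl fun y _ => by ring
    _ = _ := by
      rw [Finset.sum_sub_distrib, Finset.sum_add_distrib, h2, ← Finset.mul_sum]; ring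

omit [DecidableEq H] in
theorem defect_nonneg (f : H → ℝ) (h : H) : 0 ≤ defect f h :=
  Finset.sum_nonneg fun _ _ => sq_nonneg _

/-- The drop of the squared norm is the Dirichlet form of the two-step walk. -/
theorem drop_eq [Nonempty I] (γ : I → H) (n : ℕ) :
    2 * (Fintype.card I : ℝ) ^ 2 * (nrm γ n - nrm γ (n + 1)) =
      ∑ i, ∑ j, defect (dist γ n) (γ i * (γ j)⁻¹) := by
  have hI : (Fintype.card I : ℝ) ≠ 0 := by exact_mod_cast Fintype.card_ne_zero
  have h1 : (Fintype.card I : ℝ) ^ 2 * nrm γ (n + 1) =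
      ∑ i, ∑ j, ∑ y, dist γ n y * dist γ n (y * (γ i * (γ j)⁻¹)) := by
    unfold nrm
    rw [Finset.mul_sum]
    have : ∀ x : H, (Fintype.card I : ℝ) ^ 2 * dist γ (n + 1) x ^ 2 =
        ∑ i, ∑ j, dist γ n (x * (γ i)⁻¹) * dist γ n (x * (γ j)⁻¹) := fun x => by
      simp only [dist]
      rw [div_pow, mul_div_cancel₀ _ (pow_ne_zero 2 hI), sq, Finset.sum_mul_sum]
    simp_rw [this]
    rw [Finset.sum_comm]
    refine Finset.sum_congr rfl fun i _ => ?_
    rw [Finset.sum_comm]
    refine Finset.sum_congr rfl fun j _ => ?_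
    refine Fintype.sum_equiv (Equiv.mulRight (γ i)⁻¹) _ _ (fun x => ?_)
    simp [mul_assoc]
  simp_rw [defect_eq]
  simp only [Finset.sum_sub_distrib, Finset.sum_const, Finset.card_univ, nsmul_eq_mul]
  simp_rw [← Finset.mul_sum]
  rw [← h1]
  unfold nrm
  ring

theorem defect_le_drop [Nonempty I] (γ : I → H) (n : ℕ) (i j : I) :
    defect (dist γ n) (γ i * (γ j)⁻¹) ≤
      2 * (Fintype.card I : ℝ) ^ 2 * (nrm γ n - nrm γ (n + 1)) := by
  rw [drop_eq]
  refine (Finset.single_le_sum (f := fun j => defect (dist γ n) (γ i * (γ j)⁻¹))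
    (fun j _ => defect_nonneg _ _) (Finset.mem_univ j)).trans ?_
  exact Finset.single_le_sum (f := fun i => ∑ j, defect (dist γ n) (γ i * (γ j)⁻¹))
    (fun i _ => Finset.sum_nonneg fun j _ => defect_nonneg _ _) (Finset.mem_univ i)

theorem nrm_anti [Nonempty I] (γ : I → H) (n : ℕ) : nrm γ (n + 1) ≤ nrm γ n := by
  have h := drop_eq γ n
  have h2 : 0 ≤ ∑ i, ∑ j, defect (dist γ n) (γ i * (γ j)⁻¹) :=
    Finset.sum_nonneg fun i _ => Finset.sum_nonneg fun j _ => defect_nonneg _ _
  have hI : (0 : ℝ) < (Fintype.card I : ℝ) ^ 2 := by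
    have : (0 : ℝ) < Fintype.card I := by exact_mod_cast Fintype.card_pos
    positivity
  by_contra hc
  push Not at hc
  nlinarith

omit [DecidableEq H] in
theorem defect_mul_sqrt (f : H → ℝ) (h k : H) :
    Real.sqrt (defect f (h * k)) ≤ Real.sqrt (defect f h) + Real.sqrt (defect f k) := by
  have e1 : ∀ g : H, Real.sqrt (defect f g) =
      ‖(WithLp.toLp 2 (fun y => f y - f (y * g)) : EuclideanSpace ℝ H)‖ := fun g => by
    rw [EuclideanSpace.norm_eq]
    simp [defect]
  have e2 : Real.sqrt (defect f k) =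
      ‖(WithLp.toLp 2 (fun y => f (y * h) - f (y * h * k)) : EuclideanSpace ℝ H)‖ := by
    rw [EuclideanSpace.norm_eq]
    congr 1
    simp only [Real.norm_eq_abs, sq_abs]
    unfold defect
    exact (Fintype.sum_equiv (Equiv.mulRight h) _ _ (fun x => rfl)).symm
  rw [e1, e1 h, e2]
  refine le_trans (le_of_eq ?_) (norm_add_le _ _)
  congr 1
  ext y
  simp [mul_assoc]

theorem defect_pairProd [Nonempty I] (γ : I → H) (n : ℕ) (w : List (I × I)) :
    Real.sqrt (defect (dist γ n) (pev γ w)) ≤
      w.length * Real.sqrt (2 * (Fintype.card I : ℝ) ^ 2 * (nrm γ n - nrm γ (n + 1))) := by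
  induction w with
  | nil => simp [defect, pev_nil]
  | cons p w ih =>
    rw [pev_cons]
    refine (defect_mul_sqrt _ _ _).trans ?_
    have h2 := Real.sqrt_le_sqrt (defect_le_drop γ n p.1 p.2)
    rw [List.length_cons]
    push_cast
    linarith

/-- The Nash-type inequality. -/
theorem nash [Nonempty I] (γ : I → H) (n r : ℕ) (S : Finset H) (hS : S.Nonempty)
    (hr : ∀ h ∈ S, ∃ w : List (I × I), w.length = r ∧ pev γ w = h) :
    nrm γ n ≤ (r : ℝ) ^ 2 * (Fintype.card I : ℝ) ^ 2 * (nrm γ n - nrm γ (n + 1)) +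
      1 / (S.card : ℝ) := by
  set D := nrm γ n - nrm γ (n + 1) with hD
  have hD0 : 0 ≤ D := sub_nonneg.2 (nrm_anti γ n)
  have hc : (0 : ℝ) < S.card := by exact_mod_cast hS.card_pos
  have h1 : ∀ h ∈ S, defect (dist γ n) h ≤ (r : ℝ) ^ 2 * (2 * (Fintype.card I : ℝ) ^ 2 * D) := by
    intro h hh
    obtain ⟨w, hw, rfl⟩ := hr h hh
    have := defect_pairProd γ n w
    rw [hw] at this
    set h := pev γ w
    have h3 : 0 ≤ Real.sqrt (defect (dist γ n) h) := Real.sqrt_nonneg _
    have h4 := mul_self_le_mul_self h3 this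
    rw [Real.mul_self_sqrt (defect_nonneg _ _)] at h4
    refine h4.trans (le_of_eq ?_)
    rw [show ∀ a b : ℝ, a * b * (a * b) = a ^ 2 * (b * b) by intros; ring,
      Real.mul_self_sqrt (by positivity)]
  have h2 : ∑ h ∈ S, ∑ y, dist γ n y * dist γ n (y * h) ≤ 1 := by
    rw [Finset.sum_comm]
    have : ∀ y : H, ∑ h ∈ S, dist γ n y * dist γ n (y * h) ≤ dist γ n y := fun y => by
      rw [← Finset.mul_sum]
      have h5 : ∑ h ∈ S, dist γ n (y * h) ≤ 1 := by
        rw [← sum_dist γ n]
        rw [← Finset.sum_image (f := dist γ n) (g := fun h => y * h)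
          (fun a _ b _ hab => mul_left_cancel hab)]
        exact Finset.sum_le_univ_sum_of_nonneg fun x => dist_nonneg γ n x
      have h6 := dist_nonneg γ n y
      nlinarith
    refine (Finset.sum_le_sum fun y _ => this y).trans ?_
    rw [sum_dist]
  have h3 : ∀ h : H, nrm γ n = defect (dist γ n) h / 2 +
      ∑ y, dist γ n y * dist γ n (y * h) := fun h => by
    rw [defect_eq]; unfold nrm; ring
  have h4 : (S.card : ℝ) * nrm γ n ≤
      S.card * ((r : ℝ) ^ 2 * (Fintype.card I : ℝ) ^ 2 * D) + 1 := by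
    calc (S.card : ℝ) * nrm γ n = ∑ h ∈ S, nrm γ n := by simp
      _ = ∑ h ∈ S, (defect (dist γ n) h / 2 + ∑ y, dist γ n y * dist γ n (y * h)) :=
          Finset.sum_congr rfl fun h _ => h3 h
      _ = ∑ h ∈ S, defect (dist γ n) h / 2 +
          ∑ h ∈ S, ∑ y, dist γ n y * dist γ n (y * h) := Finset.sum_add_distrib
      _ ≤ ∑ h ∈ S, ((r : ℝ) ^ 2 * (Fintype.card I : ℝ) ^ 2 * D) + 1 := by
          refine add_le_add (Finset.sum_le_sum fun h hh => ?_) h2
          have := h1 h hh
          linarith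
      _ = _ := by simp
  have h5 : (S.card : ℝ) * nrm γ n ≤
      S.card * ((r : ℝ) ^ 2 * (Fintype.card I : ℝ) ^ 2 * D + 1 / (S.card : ℝ)) := by
    rw [mul_add, mul_one_div_cancel hc.ne']
    exact h4
  exact le_of_mul_le_mul_left h5 hc

omit [Fintype H] in
/-- Counting words by their value. -/
theorem card_words [DecidableEq I] [Nonempty I] (γ : I → H) (n : ℕ) (x : H) :
    ((Finset.univ.filter fun w : Fin n → I => (List.ofFn fun k => γ (w k)).prod = x).card : ℝ) =
      (Fintype.card I : ℝ) ^ n * dist γ n x := by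
  have hI : (Fintype.card I : ℝ) ≠ 0 := by exact_mod_cast Fintype.card_ne_zero
  induction n generalizing x with
  | zero =>
    simp only [List.ofFn_zero, List.prod_nil, pow_zero, one_mul, dist]
    by_cases hx : x = 1
    · subst hx; simp
    · rw [if_neg hx, Finset.filter_false_of_mem (fun w _ => fun h => hx h.symm)]
      simp
  | succ n ih =>
    simp only [dist]
    have h1 : (Finset.univ.filter fun w : Fin (n + 1) → I =>
        (List.ofFn fun k => γ (w k)).prod = x).card =
        ∑ i : I, (Finset.univ.filter fun w : Fin n → I =>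
          (List.ofFn fun k => γ (w k)).prod = x * (γ i)⁻¹).card := by
      simp only [Finset.card_filter]
      rw [← Fintype.sum_prod_type' (f := fun (i : I) (w : Fin n → I) =>
        if (List.ofFn fun k => γ (w k)).prod = x * (γ i)⁻¹ then 1 else 0)]
      symm
      refine Fintype.sum_equiv (Fin.snocEquiv (fun _ => I)) _ _ (fun p => ?_)
      obtain ⟨i, w⟩ := p
      have h2 : (List.ofFn fun k => γ (Fin.snocEquiv (fun _ => I) (i, w) k)).prod =
          (List.ofFn fun k => γ (w k)).prod * γ i := by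
        rw [List.ofFn_succ', List.prod_concat]
        congr 1
        · congr 2
          funext k
          simp [Fin.snocEquiv]
        · simp [Fin.snocEquiv]
      simp only [h2, eq_mul_inv_iff_mul_eq]
    rw [h1]
    push_cast
    simp_rw [ih]
    rw [← Finset.mul_sum, pow_succ]
    field_simp

end Pool.Agent.H45R3.AC
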